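import Mathlib
import Pool.Agent.L7h19.RP.Stm3
import Pool.Agent.W655.RK.Full
import Pool.Agent.W655.RK.Blw
import Pool.Agent.W37.RK.BL2
import Pool.Agent.W505.RK.LS

/-!
# Project RP: bilinear sums with weights `∏_{p ∣ m} g / p` (StBW)

From the bilinear sums with the weights `1 / m`, by splitting according to the number of the prime
factors.
-/

set_option autoImplicit false

namespace Pool.Agent.L7h80.RP

open Finset Pool.Agent.W262.RK
open Pool.Agent.L7h19.RP.AT (gm BWg)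

/-- `H ^ ω(m) / m` -/
noncomputable def wt (H : ℝ) (m : ℕ) : ℝ := H ^ m.primeFactors.card / (m : ℝ)

lemma wt_nonneg {H : ℝ} (hH : 0 ≤ H) (m : ℕ) : 0 ≤ wt H m := by
  unfold wt; positivity

lemma wt_eq {H : ℝ} {m : ℕ} (hm : Squarefree m) :
    wt H m = ∏ p ∈ m.primeFactors, H / (p : ℝ) := by
  unfold wt
  rw [prod_div_distrib, prod_const]
  congr 1
  conv_lhs => rw [← Nat.prod_primeFactors_of_squarefree hm]
  push_cast
  rfl

lemma gm_le_wt {g G : ℝ} (hg : 0 ≤ g) (hG : g ≤ G) {m : ℕ} (hm : Squarefree m) :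
    gm (fun p => g / p) m ≤ wt G m := by
  rw [wt_eq hm]
  unfold gm
  refine prod_le_prod (fun p _ => by positivity) fun p _ => ?_
  exact div_le_div_of_nonneg_right hG (Nat.cast_nonneg p)

lemma dvd_PP {Y m : ℕ} (hm : Squarefree m) (hmY : m ≤ Y) : m ∣ PP 1 Y := by
  rw [← Nat.prod_primeFactors_of_squarefree hm]
  unfold PP
  refine prod_dvd_prod_of_subset _ _ _ fun p hp => ?_
  have hp' := Nat.prime_of_mem_primeFactors hp
  unfold PS
  exact mem_filter.2 ⟨mem_Ioc.2 ⟨hp'.one_lt,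
    (Nat.le_of_mem_primeFactors hp).trans hmY⟩, hp'⟩

/-- `∑ H ^ ω(m) / m ≪ (log Y) ^ H` -/
lemma sum_wt_le : ∃ C0 : ℝ, 0 ≤ C0 ∧ ∀ (H : ℝ), 0 ≤ H → ∀ (V Y : ℕ), 3 ≤ Y →
    ∑ m ∈ (Ioc V Y).filter Squarefree, wt H m ≤ Real.exp (H * C0) * (Real.log Y) ^ H := by
  obtain ⟨C0, hC0, hmer⟩ := Pool.Agent.W655.RK.mertens
  refine ⟨C0, hC0, fun H hH V Y hY => ?_⟩
  have hlog : 0 < Real.log Y := Real.log_pos (by exact_mod_cast (by omega : 1 < Y))
  calc ∑ m ∈ (Ioc V Y).filter Squarefree, wt H m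
      ≤ ∑ m ∈ (PP 1 Y).divisors, wt H m := by
        refine sum_le_sum_of_subset_of_nonneg ?_ fun m _ _ => wt_nonneg hH m
        intro m hm
        rw [mem_filter, mem_Ioc] at hm
        exact Nat.mem_divisors.2 ⟨dvd_PP hm.2 hm.1.2, PP_ne_zero _ _⟩
    _ = ∑ m ∈ (PP 1 Y).divisors, ∏ p ∈ m.primeFactors, H / (p : ℝ) :=
        sum_congr rfl fun m hm => wt_eq (dv_squarefree hm)
    _ = ∏ p ∈ PS 1 Y, (1 + H / (p : ℝ)) := by
        unfold PP
        exact Pool.Agent.W655.RK.sum_mult (PS 1 Y) (fun p hp => Pool.Agent.W655.RK.PS_prime hp)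
          (fun p => H / (p : ℝ))
    _ ≤ Real.exp (∑ p ∈ PS 1 Y, H / (p : ℝ)) :=
        Pool.Agent.W655.RK.prod_le_exp (PS 1 Y) (fun p => H / (p : ℝ)) fun p _ => by positivity
    _ ≤ Real.exp (H * C0 + H * Real.log (Real.log Y)) := by
        refine Real.exp_le_exp.2 ?_
        have h := mul_le_mul_of_nonneg_left (hmer 1 Y (by omega)) hH
        rw [mul_sum] at h
        calc ∑ p ∈ PS 1 Y, H / (p : ℝ) = ∑ p ∈ PS 1 Y, H * (1 / (p : ℝ)) :=
              sum_congr rfl fun p _ => by rw [mul_one_div]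
          _ ≤ _ := h
          _ = _ := by ring
    _ = _ := by
        rw [Real.exp_add, Real.rpow_def_of_pos hlog, mul_comm (Real.log (Real.log Y)) H]

lemma abs_Jr_le (a : ℤ) (n : ℕ) : |Jr a n| ≤ 1 := by
  unfold Jr
  rcases jacobiSym.trichotomy a n with h | h | h <;> simp [h]

/-- a trivial bound for bilinear sums -/
lemma triv (V Y : ℕ) (a b : ℕ → ℝ) (A B : ℝ)
    (hA : ∑ m ∈ Ioc V Y, |a m| ≤ A) (hB : ∑ m ∈ Ioc V Y, |b m| ≤ B) (hA0 : 0 ≤ A) :
    |∑ m ∈ Ioc V Y, ∑ n ∈ Ioc V Y, a m * b n * Jr m n| ≤ A * B := by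
  calc |∑ m ∈ Ioc V Y, ∑ n ∈ Ioc V Y, a m * b n * Jr m n|
      ≤ ∑ m ∈ Ioc V Y, ∑ n ∈ Ioc V Y, |a m| * |b n| := by
        refine (abs_sum_le_sum_abs _ _).trans (sum_le_sum fun m _ => ?_)
        refine (abs_sum_le_sum_abs _ _).trans (sum_le_sum fun n _ => ?_)
        rw [abs_mul, abs_mul]
        exact mul_le_of_le_one_right (by positivity) (abs_Jr_le _ _)
    _ = (∑ m ∈ Ioc V Y, |a m|) * ∑ n ∈ Ioc V Y, |b n| := by
        rw [sum_mul_sum]
    _ ≤ A * B := mul_le_mul hA hB (sum_nonneg fun _ _ => abs_nonneg _) hA0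

/-- the sum of the absolute values -/
lemma sum_abs_le {V Y : ℕ} {a : ℕ → ℝ} {H K : ℝ}
    (ha : ∀ m, Squarefree m → |a m| ≤ K * wt H m) (ha' : ∀ m, a m ≠ 0 → Squarefree m) :
    ∑ m ∈ Ioc V Y, |a m| ≤ K * ∑ m ∈ (Ioc V Y).filter Squarefree, wt H m := by
  rw [mul_sum, sum_filter]
  refine sum_le_sum fun m _ => ?_
  split_ifs with h
  · exact ha m h
  · have : a m = 0 := by
      by_contra h0
      exact h (ha' m h0)
    rw [this, abs_zero]

theorem blw : BLW :=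
  Pool.Agent.W655.RK.blw_of (_root_.W37.RK.bl_of Pool.Agent.W505.RK.ls)

theorem stBW : Pool.Agent.L7h19.RP.StBW := by
  intro g F hg
  obtain ⟨C, E, hBL⟩ := blw
  obtain ⟨C0, hC0, hsum⟩ := sum_wt_le
  set G : ℝ := max g 1 with hGdef
  have hgG : g ≤ G := le_max_left _ _
  have hG1 : 1 ≤ G := le_max_right _ _
  have hG0 : 0 ≤ G := zero_le_one.trans hG1
  set N : ℕ := ⌈G + G ^ 2 + F⌉₊ with hN
  have hNle : G + G ^ 2 + F ≤ N := Nat.le_ceil _
  set D : ℝ := Real.exp (G * C0) * Real.exp (G ^ 2 * C0) with hD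
  have hD0 : 0 ≤ D := by positivity
  refine ⟨|C| + 2 * D, E + 2 * N, by positivity, ?_⟩
  intro V Y hV hVY a b ha hb ha' hb'
  have hY3 : 3 ≤ Y := hV.trans hVY
  have hL1 : 1 ≤ Real.log Y := by
    rw [Real.le_log_iff_exp_le (by positivity)]
    have h1 := Real.exp_one_lt_d9
    have h2 : (3 : ℝ) ≤ Y := by exact_mod_cast hY3
    linarith
  set L : ℝ := Real.log Y with hLdef
  have hL0 : 0 < L := zero_lt_one.trans_le hL1
  have hLN : 0 < L ^ N := by positivity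
  -- the splitting
  set P : ℕ → Prop := fun m => G ^ m.primeFactors.card ≤ L ^ N with hP
  classical
  have key : ∀ c : ℕ → ℝ, (∀ m, |c m| ≤ gm (fun p => g / p) m) →
      (∀ m, c m ≠ 0 → Odd m ∧ Squarefree m) →
      (∀ m, |(if P m then c m else 0) / L ^ N| ≤ 1 / (m : ℝ)) ∧
      (∑ m ∈ Ioc V Y, |c m| ≤ Real.exp (G * C0) * L ^ G) ∧
      (∑ m ∈ Ioc V Y, |if P m then c m else 0| ≤ Real.exp (G * C0) * L ^ G) ∧
      (∑ m ∈ Ioc V Y, |if P m then 0 else c m| ≤
        (L ^ N)⁻¹ * (Real.exp (G ^ 2 * C0) * L ^ (G ^ 2))) := by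
    intro c hc hc'
    have h1 : ∀ m, Squarefree m → |c m| ≤ 1 * wt G m := fun m hm => by
      rw [one_mul]; exact (hc m).trans (gm_le_wt hg hgG hm)
    refine ⟨fun m => ?_, ?_, ?_, ?_⟩
    · by_cases h0 : c m = 0
      · rw [h0]
        simp
      · have hm := (hc' m h0).2
        split_ifs with hPm
        · rw [abs_div, abs_of_pos hLN, div_le_iff₀ hLN]
          have h2 := h1 m hm
          rw [one_mul] at h2
          refine h2.trans ?_
          unfold wt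
          rw [div_mul_eq_mul_div, one_mul]
          exact div_le_div_of_nonneg_right hPm (Nat.cast_nonneg m)
        · simp
    · have h2 := sum_abs_le (V := V) (Y := Y) h1 fun m hm => (hc' m hm).2
      rw [one_mul] at h2
      exact h2.trans (hsum G hG0 V Y hY3)
    · have h2 := sum_abs_le (V := V) (Y := Y) (a := fun m => if P m then c m else 0)
        (H := G) (K := 1) (fun m hm => ?_) (fun m hm => ?_)
      · rw [one_mul] at h2
        exact h2.trans (hsum G hG0 V Y hY3)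
      · split_ifs
        · exact h1 m hm
        · rw [abs_zero, one_mul]
          exact wt_nonneg hG0 m
      · split_ifs at hm
        · exact (hc' m hm).2
        · exact absurd rfl hm
    · have h2 := sum_abs_le (V := V) (Y := Y) (a := fun m => if P m then 0 else c m)
        (H := G ^ 2) (K := (L ^ N)⁻¹) (fun m hm => ?_) (fun m hm => ?_)
      · exact h2.trans (mul_le_mul_of_nonneg_left (hsum (G ^ 2) (sq_nonneg G) V Y hY3)
          (inv_nonneg.2 hLN.le))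
      · split_ifs with hPm
        · rw [abs_zero]
          exact mul_nonneg (inv_nonneg.2 hLN.le) (wt_nonneg (sq_nonneg G) m)
        · have h3 := h1 m hm
          rw [one_mul] at h3
          refine h3.trans ?_
          unfold wt
          rw [← mul_div_assoc]
          refine div_le_div_of_nonneg_right ?_ (Nat.cast_nonneg m)
          have h4 : L ^ N ≤ G ^ m.primeFactors.card := (not_le.1 hPm).le
          rw [inv_mul_eq_div, le_div_iff₀ hLN, ← pow_mul, mul_comm 2, pow_mul, sq]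
          exact mul_le_mul_of_nonneg_left h4 (by positivity)
      · split_ifs at hm
        · exact absurd rfl hm
        · exact (hc' m hm).2
  obtain ⟨a1, a2, a3, a4⟩ := key a ha ha'
  obtain ⟨b1, b2, b3, b4⟩ := key b hb hb'
  set S1 : ℝ := ∑ m ∈ Ioc V Y, ∑ n ∈ Ioc V Y,
    ((if P m then a m else 0) / L ^ N) * ((if P n then b n else 0) / L ^ N) * Jr m n with hS1
  set S2 : ℝ := ∑ m ∈ Ioc V Y, ∑ n ∈ Ioc V Y,
    (if P m then a m else 0) * (if P n then 0 else b n) * Jr m n with hS2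
  set S3 : ℝ := ∑ m ∈ Ioc V Y, ∑ n ∈ Ioc V Y,
    (if P m then 0 else a m) * b n * Jr m n with hS3
  have hsplit : ∑ m ∈ Ioc V Y, ∑ n ∈ Ioc V Y, a m * b n * Jr m n =
      L ^ (2 * N) * S1 + S2 + S3 := by
    rw [hS1, hS2, hS3, mul_sum, ← sum_add_distrib, ← sum_add_distrib]
    refine sum_congr rfl fun m _ => ?_
    rw [mul_sum, ← sum_add_distrib, ← sum_add_distrib]
    refine sum_congr rfl fun n _ => ?_
    have hne : L ^ N ≠ 0 := hLN.ne'
    have h5 : L ^ (2 * N) = L ^ N * L ^ N := by rw [two_mul, pow_add]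
    rw [h5]
    by_cases h1 : P m <;> by_cases h2 : P n <;> simp only [h1, h2, if_true, if_false] <;>
      field_simp <;> ring
  have hodd : ∀ c : ℕ → ℝ, (∀ m, c m ≠ 0 → Odd m ∧ Squarefree m) →
      ∀ m, (if P m then c m else 0) / L ^ N ≠ 0 → Odd m ∧ Squarefree m := by
    intro c hc m hm
    apply hc m
    intro h0
    apply hm
    rw [h0]
    simp
  have hb1 : |S1| ≤ C * L ^ E * (V : ℝ) ^ (-(1 / 6 : ℝ)) :=
    hBL V Y (by omega) hVY _ _ a1 b1 (hodd a ha') (hodd b hb')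
  have hb2 : |S2| ≤ (Real.exp (G * C0) * L ^ G) *
      ((L ^ N)⁻¹ * (Real.exp (G ^ 2 * C0) * L ^ (G ^ 2))) :=
    triv V Y _ _ _ _ a3 b4 (by positivity)
  have hb3 : |S3| ≤ ((L ^ N)⁻¹ * (Real.exp (G ^ 2 * C0) * L ^ (G ^ 2))) *
      (Real.exp (G * C0) * L ^ G) :=
    triv V Y _ _ _ _ a4 b2 (by positivity)
  have herr : (Real.exp (G * C0) * L ^ G) *
      ((L ^ N)⁻¹ * (Real.exp (G ^ 2 * C0) * L ^ (G ^ 2))) ≤ D * L ^ (-F) := by
    have h6 : L ^ G * L ^ (G ^ 2) * (L ^ N)⁻¹ ≤ L ^ (-F) := by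
      rw [← Real.rpow_natCast L N, ← Real.rpow_neg hL0.le, ← Real.rpow_add hL0,
        ← Real.rpow_add hL0]
      exact Real.rpow_le_rpow_of_exponent_le hL1 (by linarith)
    calc (Real.exp (G * C0) * L ^ G) * ((L ^ N)⁻¹ * (Real.exp (G ^ 2 * C0) * L ^ (G ^ 2)))
        = D * (L ^ G * L ^ (G ^ 2) * (L ^ N)⁻¹) := by rw [hD]; ring
      _ ≤ D * L ^ (-F) := mul_le_mul_of_nonneg_left h6 hD0
  have hV0 : (0 : ℝ) ≤ (V : ℝ) ^ (-(1 / 6 : ℝ)) := Real.rpow_nonneg (Nat.cast_nonneg V) _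
  have hF0 : (0 : ℝ) ≤ L ^ (-F) := Real.rpow_nonneg hL0.le _
  rw [hsplit]
  calc |L ^ (2 * N) * S1 + S2 + S3| ≤ |L ^ (2 * N) * S1| + |S2| + |S3| := abs_add_three _ _ _
    _ ≤ L ^ (2 * N) * (|C| * L ^ E * (V : ℝ) ^ (-(1 / 6 : ℝ))) + D * L ^ (-F) + D * L ^ (-F) := by
        refine add_le_add (add_le_add ?_ (hb2.trans herr)) (hb3.trans ?_)
        · rw [abs_mul, abs_of_nonneg (by positivity : (0 : ℝ) ≤ L ^ (2 * N))]
          refine mul_le_mul_of_nonneg_left (hb1.trans ?_) (by positivity)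
          exact mul_le_mul_of_nonneg_right
            (mul_le_mul_of_nonneg_right (le_abs_self C) (by positivity)) hV0
        · rw [mul_comm]
          exact herr
    _ = |C| * (L ^ (E + 2 * N) * (V : ℝ) ^ (-(1 / 6 : ℝ))) + 2 * D * L ^ (-F) := by
        rw [pow_add]; ring
    _ ≤ (|C| + 2 * D) * (L ^ (E + 2 * N) * (V : ℝ) ^ (-(1 / 6 : ℝ)) + L ^ (-F)) := by
        have h7 : 0 ≤ 2 * D * (L ^ (E + 2 * N) * (V : ℝ) ^ (-(1 / 6 : ℝ))) := by positivity
        have h8 : 0 ≤ |C| * L ^ (-F) := by positivity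
        nlinarith

end Pool.Agent.L7h80.RP
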