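import Mathlib

/-!
# Homomorphisms of the ring of integers to the prime fields, and those of another ring with the same
field of fractions (helper80, for helper19's project RP)
-/

set_option autoImplicit false

namespace Pool.Agent.L7h80.RP

open Polynomial NumberField

/-- every element of `L` is an element of `A` divided by a nonzero integer -/
def Cofin {A L : Type*} [CommRing A] [Field L] (ι : A →+* L) : Prop :=
  ∀ x : L, ∃ n : ℤ, n ≠ 0 ∧ ∃ a : A, (n : L) * x = ι a

/-- a common denominator for the ring of integers -/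
theorem common_den {L : Type} [Field L] [NumberField L] {A : Type} [CommRing A] (ι : A →+* L)
    (hc : Cofin ι) : ∃ N : ℤ, N ≠ 0 ∧ ∀ x : 𝓞 L, ∃ a : A, (N : L) * algebraMap (𝓞 L) L x = ι a := by
  classical
  obtain ⟨s, hs⟩ := (Module.Finite.fg_top : (⊤ : Submodule ℤ (𝓞 L)).FG)
  choose n hn a ha using hc
  refine ⟨∏ x ∈ s, n (algebraMap (𝓞 L) L x), Finset.prod_ne_zero_iff.2 fun x _ => hn _,
    fun x => ?_⟩
  have hx : x ∈ Submodule.span ℤ (s : Set (𝓞 L)) := by rw [hs]; trivial
  induction hx using Submodule.span_induction with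
  | mem y hy =>
    refine ⟨((∏ z ∈ s.erase y, n (algebraMap (𝓞 L) L z) : ℤ) : A) * a (algebraMap (𝓞 L) L y), ?_⟩
    rw [← Finset.mul_prod_erase s (fun z => n (algebraMap (𝓞 L) L z)) (by simpa using hy), map_mul,
      ← ha, map_intCast, Int.cast_mul]
    ring
  | zero => exact ⟨0, by simp⟩
  | add y z _ _ h1 h2 =>
    obtain ⟨b, hb⟩ := h1
    obtain ⟨c, hc⟩ := h2
    exact ⟨b + c, by rw [map_add, map_add, ← hb, ← hc]; ring⟩
  | smul m y _ h1 =>
    obtain ⟨b, hb⟩ := h1
    refine ⟨(m : A) * b, ?_⟩
    rw [map_mul, ← hb, map_intCast, zsmul_eq_mul, map_mul, map_intCast]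
    ring

/-- a denominator for an element of a number field -/
theorem int_mul {L : Type} [Field L] [NumberField L] (y : L) :
    ∃ n : ℤ, n ≠ 0 ∧ ∃ x : 𝓞 L, (n : L) * y = algebraMap (𝓞 L) L x := by
  obtain ⟨⟨x, n⟩, h⟩ := IsLocalization.surj (Algebra.algebraMapSubmonoid (𝓞 L) (nonZeroDivisors ℤ)) y
  obtain ⟨m, hm, hmn⟩ := n.2
  refine ⟨m, nonZeroDivisors.ne_zero hm, x, ?_⟩
  rw [mul_comm]
  have : algebraMap (𝓞 L) L (n : 𝓞 L) = (m : L) := by
    rw [← hmn]; simp
  rw [← this]
  exact h

theorem ne_zero_of_lt {N : ℤ} {p : ℕ} (hN : N ≠ 0) (hp : N.natAbs < p) : ((N : ℤ) : ZMod p) ≠ 0 := by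
  intro h
  rw [ZMod.intCast_zmod_eq_zero_iff_dvd, Int.natCast_dvd] at h
  have := Nat.le_of_dvd (Int.natAbs_pos.2 hN) h
  omega

/-- **The rings `𝓞 L` and `A` have the same number of homomorphisms to `ℤ/p` for all large `p`.** -/
theorem card_homs {L : Type} [Field L] [NumberField L] {A : Type} [CommRing A] (ι : A →+* L)
    (hι : Function.Injective ι) (hc : Cofin ι) (s : Finset A)
    (hs : Subring.closure (s : Set A) = ⊤) :
    ∃ B : ℕ, ∀ p : ℕ, p.Prime → B < p →
      Nat.card (𝓞 L →+* ZMod p) = Nat.card (A →+* ZMod p) := by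
  classical
  obtain ⟨N1, hN1, h1⟩ := common_den ι hc
  have h2 : ∀ a : A, ∃ n : ℤ, n ≠ 0 ∧ ∃ x : 𝓞 L, (n : L) * ι a = algebraMap (𝓞 L) L x :=
    fun a => int_mul _
  choose n hn x hx using h2
  set N2 : ℤ := ∏ a ∈ s, n a with hN2
  have hN20 : N2 ≠ 0 := Finset.prod_ne_zero_iff.2 fun a _ => hn a
  -- every element of `A` times a power of `N2` is integral
  have h3 : ∀ a : A, ∃ k : ℕ, ∃ y : 𝓞 L, (N2 : L) ^ k * ι a = algebraMap (𝓞 L) L y := by
    intro a
    have ha : a ∈ Subring.closure (s : Set A) := by rw [hs]; trivial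
    induction ha using Subring.closure_induction with
    | mem a ha =>
      refine ⟨1, ((∏ b ∈ s.erase a, n b : ℤ) : 𝓞 L) * x a, ?_⟩
      rw [pow_one, hN2, ← Finset.mul_prod_erase s n (by simpa using ha), map_mul, ← hx a,
        map_intCast, Int.cast_mul]
      ring
    | zero => exact ⟨0, 0, by simp⟩
    | one => exact ⟨0, 1, by simp⟩
    | add a b _ _ h1 h2 =>
      obtain ⟨k, y, hy⟩ := h1
      obtain ⟨l, z, hz⟩ := h2
      refine ⟨k + l, (N2 : 𝓞 L) ^ l * y + (N2 : 𝓞 L) ^ k * z, ?_⟩
      simp only [map_add, map_mul, map_pow, map_intCast]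
      rw [← hy, ← hz]
      ring
    | neg a _ h1 =>
      obtain ⟨k, y, hy⟩ := h1
      refine ⟨k, -y, ?_⟩
      rw [map_neg, map_neg, ← hy]
      ring
    | mul a b _ _ h1 h2 =>
      obtain ⟨k, y, hy⟩ := h1
      obtain ⟨l, z, hz⟩ := h2
      refine ⟨k + l, y * z, ?_⟩
      rw [map_mul, map_mul, ← hy, ← hz]
      ring
  choose c hcx using h1
  refine ⟨N1.natAbs + N2.natAbs, fun p hp hpB => ?_⟩
  have : Fact p.Prime := ⟨hp⟩
  have e1 : ((N1 : ℤ) : ZMod p) ≠ 0 := ne_zero_of_lt hN1 (by omega)
  have e2 : ((N2 : ℤ) : ZMod p) ≠ 0 := ne_zero_of_lt hN20 (by omega)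
  -- the map from homomorphisms of `A` to homomorphisms of `𝓞 L`
  have key : ∀ (φ : A →+* ZMod p) (k : ℤ) (y : 𝓞 L) (a : A),
      (k : L) * algebraMap (𝓞 L) L y = ι a → (k : ZMod p) * (φ (c y) / (N1 : ZMod p)) = φ a := by
    intro φ k y a h
    have h4 : ι ((k : A) * c y) = ι ((N1 : A) * a) := by
      rw [map_mul, map_mul, ← hcx, ← h, map_intCast, map_intCast]; ring
    have h5 := congrArg φ (hι h4)
    rw [map_mul, map_mul, map_intCast, map_intCast] at h5
    field_simp
    linear_combination h5
  let F : (A →+* ZMod p) → (𝓞 L →+* ZMod p) := fun φ =>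
    { toFun := fun y => φ (c y) / (N1 : ZMod p)
      map_one' := by
        have := key φ 1 1 1 (by simp)
        simpa using this
      map_mul' := by
        intro y z
        have h4 : ι (c y * c z) = ι ((N1 : A) * c (y * z)) := by
          rw [map_mul, map_mul, ← hcx, ← hcx, ← hcx, map_intCast, map_mul]
          ring
        have h5 := congrArg φ (hι h4)
        rw [map_mul, map_mul, map_intCast] at h5
        field_simp
        linear_combination -h5
      map_zero' := by
        have := key φ 1 0 0 (by simp)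
        simpa using this
      map_add' := by
        intro y z
        have h4 : ι (c y + c z) = ι (c (y + z)) := by
          rw [map_add, ← hcx, ← hcx, ← hcx, map_add]
          ring
        have h5 := congrArg φ (hι h4)
        rw [map_add] at h5
        rw [← h5]
        ring }
  have hF : ∀ φ y, F φ y = φ (c y) / (N1 : ZMod p) := fun _ _ => rfl
  symm
  refine Nat.card_congr (Equiv.ofBijective F ⟨?_, ?_⟩)
  · intro φ ψ h
    refine RingHom.ext fun a => ?_
    obtain ⟨k, y, hy⟩ := h3 a
    have g : ∀ θ : A →+* ZMod p, F θ y = (N2 : ZMod p) ^ k * θ a := by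
      intro θ
      have := key θ 1 y ((N2 : A) ^ k * a) (by rw [map_mul, map_pow, map_intCast, hy]; simp)
      rw [hF]
      simpa using this
    have h4 := g φ
    rw [h, g ψ] at h4
    exact (mul_left_cancel₀ (pow_ne_zero _ e2) h4).symm
  · intro ψ
    choose k y hy using h3
    have g : ∀ (a : A) (l : ℤ) (z : 𝓞 L), (l : ZMod p) ≠ 0 → (l : L) * ι a = algebraMap (𝓞 L) L z →
        ψ (y a) / (N2 : ZMod p) ^ k a = ψ z / (l : ZMod p) := by
      intro a l z hl hz
      have h4 : (l : 𝓞 L) * y a = (N2 : 𝓞 L) ^ k a * z := by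
        apply FaithfulSMul.algebraMap_injective (𝓞 L) L
        simp only [map_mul, map_pow, map_intCast]
        rw [← hy, ← hz]
        ring
      have h5 := congrArg ψ h4
      rw [map_mul, map_mul, map_pow, map_intCast, map_intCast] at h5
      field_simp
      linear_combination h5
    have g' : ∀ (a : A), ((N2 ^ k a : ℤ) : ZMod p) ≠ 0 := by
      intro a
      push_cast
      exact pow_ne_zero _ e2
    let G : A →+* ZMod p :=
      { toFun := fun a => ψ (y a) / (N2 : ZMod p) ^ k a
        map_one' := by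
          have := g 1 1 1 (by simp) (by simp)
          simpa using this
        map_zero' := by
          have := g 0 1 0 (by simp) (by simp)
          simpa using this
        map_mul' := by
          intro a b
          have := g (a * b) (N2 ^ k a * N2 ^ k b) (y a * y b) (by
            push_cast
            exact mul_ne_zero (pow_ne_zero _ e2) (pow_ne_zero _ e2)) (by
            rw [Int.cast_mul, Int.cast_pow, Int.cast_pow, map_mul, map_mul, ← hy, ← hy]
            ring)
          rw [this, map_mul]
          push_cast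
          field_simp
        map_add' := by
          intro a b
          have := g (a + b) (N2 ^ k a * N2 ^ k b)
            ((N2 : 𝓞 L) ^ k b * y a + (N2 : 𝓞 L) ^ k a * y b) (by
            push_cast
            exact mul_ne_zero (pow_ne_zero _ e2) (pow_ne_zero _ e2)) (by
            simp only [Int.cast_mul, Int.cast_pow, map_add, map_mul, map_pow, map_intCast]
            rw [← hy, ← hy]
            ring)
          rw [this, map_add, map_mul, map_mul, map_pow, map_pow, map_intCast]
          push_cast
          field_simp }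
    refine ⟨G, RingHom.ext fun z => ?_⟩
    rw [hF]
    have h4 : G (c z) = (N1 : ZMod p) * ψ z := by
      have := g (c z) 1 ((N1 : 𝓞 L) * z) (by simp) (by rw [← hcx]; simp)
      show ψ (y (c z)) / (N2 : ZMod p) ^ k (c z) = _
      rw [this]
      simp
    rw [h4]
    field_simp

end Pool.Agent.L7h80.RP
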