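import Pool.Agent.L7h19.RP.Stm2
import Pool.Agent.L7h80.RP.Hom

/-!
# Part 3 (StQuad) of the project RP (helper80, for helper19's project on MP_157626_nt)
-/

set_option autoImplicit false

namespace Pool.Agent.L7h80.RP

open Polynomial NumberField Finset
open Pool.Agent.H474R2.PG (rho)

/-! ## Generators and denominators -/

/-- the ring `R[X]/(m)` is generated by a generating set of `R` and the root -/
theorem closure_adjoinRoot {R : Type*} [CommRing R] [DecidableEq R] (m : R[X])
    [DecidableEq (AdjoinRoot m)] (s : Finset R) (hs : Subring.closure (s : Set R) = ⊤) :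
    Subring.closure ((insert (AdjoinRoot.root m) (s.image (AdjoinRoot.of m)) :
      Finset (AdjoinRoot m)) : Set (AdjoinRoot m)) = ⊤ := by
  rw [eq_top_iff]
  intro x _
  induction x using AdjoinRoot.induction_on with
  | ih g =>
    have hof : ∀ a : R, AdjoinRoot.of m a ∈ Subring.closure
        ((insert (AdjoinRoot.root m) (s.image (AdjoinRoot.of m)) :
          Finset (AdjoinRoot m)) : Set (AdjoinRoot m)) := by
      intro a
      have ha : a ∈ Subring.closure (s : Set R) := by rw [hs]; trivial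
      induction ha using Subring.closure_induction with
      | mem a ha =>
        apply Subring.subset_closure
        rw [Finset.mem_coe, Finset.mem_insert]
        exact Or.inr (Finset.mem_image_of_mem _ ha)
      | zero => rw [map_zero]; exact zero_mem _
      | one => rw [map_one]; exact one_mem _
      | add a b _ _ h1 h2 => rw [map_add]; exact add_mem h1 h2
      | neg a _ h1 => rw [map_neg]; exact neg_mem h1
      | mul a b _ _ h1 h2 => rw [map_mul]; exact mul_mem h1 h2
    induction g using Polynomial.induction_on with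
    | C a => exact hof a
    | add p q h1 h2 => rw [map_add]; exact add_mem (h1 trivial) (h2 trivial)
    | monomial n a h =>
      rw [pow_succ, ← mul_assoc, map_mul]
      refine mul_mem (h trivial) ?_
      apply Subring.subset_closure
      rw [Finset.mem_coe, Finset.mem_insert]
      exact Or.inl rfl

theorem cofin_of {F L A : Type*} [Field F] [Field L] [CommRing A] (ι : A →+* L) (i : F →+* L)
    (r : L) (h1 : ∀ c : F, ∃ n : ℤ, n ≠ 0 ∧ ∃ a : A, (n : L) * i c = ι a) (h2 : ∃ a, ι a = r)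
    (h3 : ∀ x : L, ∃ q : F[X], eval₂ i r q = x) : Cofin ι := by
  intro x
  obtain ⟨q, rfl⟩ := h3 x
  obtain ⟨b, hb⟩ := h2
  induction q using Polynomial.induction_on with
  | C a => rw [eval₂_C]; exact h1 a
  | add p q h1 h2 =>
    obtain ⟨n, hn, a, ha⟩ := h1
    obtain ⟨m, hm, c, hc⟩ := h2
    refine ⟨n * m, mul_ne_zero hn hm, (m : A) * a + (n : A) * c, ?_⟩
    rw [eval₂_add, map_add, map_mul, map_mul, ← ha, ← hc, map_intCast, map_intCast, Int.cast_mul]
    ring
  | monomial n a h =>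
    obtain ⟨n, hn, a, ha⟩ := h
    refine ⟨n, hn, a * b, ?_⟩
    rw [pow_succ, ← mul_assoc, eval₂_mul, eval₂_X, map_mul, ← ha, ← hb]
    ring

theorem rat_den {L A : Type*} [Field L] [CharZero L] [CommRing A] (ι : A →+* L) (i : ℚ →+* L)
    (c : ℚ) : ∃ n : ℤ, n ≠ 0 ∧ ∃ a : A, (n : L) * i c = ι a := by
  refine ⟨c.den, by exact_mod_cast c.den_ne_zero, (c.num : A), ?_⟩
  rw [map_intCast]
  have h1 : ((c.den : ℤ) : L) * i c = i ((c.den : ℚ) * c) := by
    rw [map_mul, map_natCast]; simp
  rw [h1, mul_comm, Rat.mul_den_eq_num, map_intCast]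

/-! ## Homomorphisms of `R[X]/(m)` -/

/-- homomorphisms of `R[X]/(m)` -/
noncomputable def homEquiv {R : Type*} [CommRing R] (m : R[X]) (T : Type*) [CommRing T] :
    (AdjoinRoot m →+* T) ≃ Σ φ : R →+* T, {y : T // m.eval₂ φ y = 0} where
  toFun ψ := ⟨ψ.comp (AdjoinRoot.of m), ψ (AdjoinRoot.root m), by
    rw [← hom_eval₂, AdjoinRoot.eval₂_root, map_zero]⟩
  invFun w := AdjoinRoot.lift w.1 w.2.1 w.2.2
  left_inv ψ := by
    apply AdjoinRoot.ringHom_ext
    · ext a; simp
    · simp
  right_inv w := by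
    obtain ⟨φ, y, hy⟩ := w
    have h1 : (AdjoinRoot.lift φ y hy).comp (AdjoinRoot.of m) = φ := by ext a; simp
    refine Sigma.ext h1 ?_
    have h2 : ∀ (φ' : R →+* T) (h : φ' = φ) (y' : T) (hy' : m.eval₂ φ' y' = 0) , y' = y →
        HEq (⟨y', hy'⟩ : {y : T // m.eval₂ φ' y = 0}) (⟨y, hy⟩ : {y : T // m.eval₂ φ y = 0}) := by
      rintro φ' rfl y' hy' rfl
      rfl
    exact h2 _ h1 _ _ (by simp)

/-- homomorphisms of `ℤ[X]/(f)` -/
noncomputable def homEquivInt (f : ℤ[X]) (T : Type*) [CommRing T] :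
    (AdjoinRoot f →+* T) ≃ {y : T // f.eval₂ (Int.castRingHom T) y = 0} where
  toFun ψ := ⟨ψ (AdjoinRoot.root f), by
    have h : Int.castRingHom T = ψ.comp (AdjoinRoot.of f) := Subsingleton.elim _ _
    rw [h, ← hom_eval₂, AdjoinRoot.eval₂_root, map_zero]⟩
  invFun w := AdjoinRoot.lift (Int.castRingHom T) w.1 w.2
  left_inv ψ := by
    apply AdjoinRoot.ringHom_ext
    · exact Subsingleton.elim _ _
    · simp
  right_inv w := by
    apply Subtype.ext
    simp

theorem eval_zmod (f : ℤ[X]) (p : ℕ) (a : ℤ) :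
    f.eval₂ (Int.castRingHom (ZMod p)) (a : ZMod p) = ((f.eval a : ℤ) : ZMod p) := by
  have h := hom_eval₂ f (RingHom.id ℤ) (Int.castRingHom (ZMod p)) a
  rw [RingHom.comp_id] at h
  rw [eval]
  exact h.symm

/-- roots in `ZMod p` and roots in `range p` -/
theorem sum_roots (f : ℤ[X]) (p : ℕ) [Fact p.Prime] [Fintype {y : ZMod p //
    f.eval₂ (Int.castRingHom (ZMod p)) y = 0}] (F : ℤ → ℤ)
    (G : {y : ZMod p // f.eval₂ (Int.castRingHom (ZMod p)) y = 0} → ℤ)
    (h : ∀ y (a : ℤ), (a : ZMod p) = y.1 → F a = G y) :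
    ∑ ν ∈ (range p).filter (fun ν : ℕ => (p : ℤ) ∣ f.eval (ν : ℤ)), F ν = ∑ y, G y := by
  symm
  refine Finset.sum_bij (fun y _ => y.1.val) ?_ ?_ ?_ ?_
  · intro y _
    rw [Finset.mem_filter, Finset.mem_range]
    refine ⟨ZMod.val_lt _, ?_⟩
    rw [← ZMod.intCast_zmod_eq_zero_iff_dvd, ← eval_zmod]
    have h6 : (((y.1.val : ℕ) : ℤ) : ZMod p) = y.1 := by
      push_cast
      exact ZMod.natCast_zmod_val _
    rw [h6]
    exact y.2
  · intro y _ z _ h
    exact Subtype.ext (ZMod.val_injective p h)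
  · intro b hb
    rw [Finset.mem_filter, Finset.mem_range] at hb
    refine ⟨⟨((b : ℤ) : ZMod p), ?_⟩, Finset.mem_univ _, ?_⟩
    · rw [eval_zmod, ZMod.intCast_zmod_eq_zero_iff_dvd]
      exact hb.2
    · simp only [Int.cast_natCast]
      exact ZMod.val_cast_of_lt hb.1
  · intro y _
    refine (h y _ ?_).symm
    push_cast
    exact ZMod.natCast_zmod_val _

theorem card_homs_int (f : ℤ[X]) (p : ℕ) [Fact p.Prime] :
    Nat.card (AdjoinRoot f →+* ZMod p) = rho f p := by
  classical
  have : Fintype {y : ZMod p // f.eval₂ (Int.castRingHom (ZMod p)) y = 0} := Fintype.ofFinite _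
  rw [Nat.card_congr (homEquivInt f (ZMod p)), Nat.card_eq_fintype_card]
  have h := sum_roots f p (fun _ => 1) (fun _ => 1) (fun _ _ _ => rfl)
  unfold rho
  simp only [Finset.sum_const, mul_one, nsmul_eq_mul, Finset.card_univ] at h
  exact_mod_cast h.symm

/-! ## The fields -/

theorem map_injective_int {f : ℤ[X]} (hf : f.IsPrimitive) :
    Function.Injective (AdjoinRoot.map (Int.castRingHom ℚ) f (f.map (Int.castRingHom ℚ))
      dvd_rfl) := by
  rw [injective_iff_map_eq_zero]
  intro x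
  induction x using AdjoinRoot.induction_on with
  | ih g =>
    intro h
    have h1 : AdjoinRoot.map (Int.castRingHom ℚ) f (f.map (Int.castRingHom ℚ)) dvd_rfl
        (AdjoinRoot.mk f g) = AdjoinRoot.mk _ (g.map (Int.castRingHom ℚ)) := by
      rw [AdjoinRoot.map, AdjoinRoot.lift_mk, ← eval₂_map, ← AdjoinRoot.algebraMap_eq,
        ← aeval_def, AdjoinRoot.aeval_eq]
    rw [h1, AdjoinRoot.mk_eq_zero] at h
    rw [AdjoinRoot.mk_eq_zero]
    exact (IsPrimitive.Int.dvd_iff_map_cast_dvd_map_cast f g hf).2 h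

theorem map_injective_monic {R S : Type*} [CommRing R] [CommRing S] (ι : R →+* S)
    (hι : Function.Injective ι) (m : R[X]) (hm : m.Monic) (m' : S[X]) (h' : m.map ι = m')
    (hd : m' ∣ m.map ι) : Function.Injective (AdjoinRoot.map ι m m' hd) := by
  subst h'
  rw [injective_iff_map_eq_zero]
  intro x
  induction x using AdjoinRoot.induction_on with
  | ih g =>
    intro h
    have h1 : AdjoinRoot.map ι m (m.map ι) hd (AdjoinRoot.mk m g) =
        AdjoinRoot.mk _ (g.map ι) := by
      rw [AdjoinRoot.map, AdjoinRoot.lift_mk, ← eval₂_map, ← AdjoinRoot.algebraMap_eq,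
        ← aeval_def, AdjoinRoot.aeval_eq]
    rw [h1, AdjoinRoot.mk_eq_zero, ← modByMonic_eq_zero_iff_dvd (hm.map ι),
      ← map_modByMonic ι hm] at h
    rw [AdjoinRoot.mk_eq_zero, ← modByMonic_eq_zero_iff_dvd hm]
    exact (Polynomial.map_injective ι hι) (by rw [h, Polynomial.map_zero])

/-- the number of square roots -/
theorem card_sq (p : ℕ) [Fact p.Prime] (hp : p ≠ 2) (a : ℤ) :
    (Nat.card {y : ZMod p // y ^ 2 = (a : ZMod p)} : ℤ) = 1 + jacobiSym a p := by
  classical
  rw [← jacobiSym.legendreSym.to_jacobiSym, add_comm, ← legendreSym.card_sqrts p hp a]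
  rw [Nat.card_eq_fintype_card, Set.toFinset_card]
  congr 1

/-- **StQuad** -/
theorem stQuad : Pool.Agent.L7h19.RP.StQuad := by
  classical
  intro f κ hf hd hκ
  have hprim : f.IsPrimitive := hf.isPrimitive hd.ne'
  have hF : Irreducible (f.map (Int.castRingHom ℚ)) :=
    (IsPrimitive.Int.irreducible_iff_irreducible_map_cast hprim).1 hf
  have hfact : Fact (Irreducible (f.map (Int.castRingHom ℚ))) := ⟨hF⟩
  set K : Type := AdjoinRoot (f.map (Int.castRingHom ℚ)) with hK
  set ι : AdjoinRoot f →+* K :=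
    AdjoinRoot.map (Int.castRingHom ℚ) f (f.map (Int.castRingHom ℚ)) dvd_rfl with hι
  have hinj : Function.Injective ι := map_injective_int hprim
  have hcof : Cofin ι := by
    refine cofin_of ι (AdjoinRoot.of (f.map (Int.castRingHom ℚ)))
      (AdjoinRoot.root (f.map (Int.castRingHom ℚ))) (fun c => rat_den ι _ c)
      ⟨AdjoinRoot.root f, AdjoinRoot.map_root _ _ _ _⟩ ?_
    intro x
    obtain ⟨q, rfl⟩ := AdjoinRoot.mk_surjective x
    refine ⟨q, ?_⟩
    rw [← AdjoinRoot.algebraMap_eq, ← aeval_def, AdjoinRoot.aeval_eq]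
  have hgen : Subring.closure ((insert (AdjoinRoot.root f)
      ((∅ : Finset ℤ).image (AdjoinRoot.of f)) : Finset (AdjoinRoot f)) :
        Set (AdjoinRoot f)) = ⊤ := by
    apply closure_adjoinRoot
    rw [eq_top_iff]
    intro n _
    exact intCast_mem _ n
  obtain ⟨B1, hB1⟩ := card_homs ι hinj hcof _ hgen
  -- `κ(θ)` is not zero
  set c : K := ι (AdjoinRoot.mk f κ) with hc
  have hc0 : c ≠ 0 := by
    intro h
    rw [hc, map_eq_zero_iff ι hinj, AdjoinRoot.mk_eq_zero] at h
    exact hκ h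
  obtain ⟨n1, hn1, a1, ha1⟩ := hcof c⁻¹
  have e1 : (n1 : AdjoinRoot f) = a1 * AdjoinRoot.mk f κ := by
    apply hinj
    rw [map_mul, ← ha1, map_intCast, ← hc, inv_mul_cancel_right₀ hc0]
  -- values at the roots
  have hval : ∀ (p : ℕ) (ν : ℤ) (h : f.eval₂ (Int.castRingHom (ZMod p)) (ν : ZMod p) = 0),
      AdjoinRoot.lift (Int.castRingHom (ZMod p)) (ν : ZMod p) h (AdjoinRoot.mk f κ) =
        ((κ.eval ν : ℤ) : ZMod p) := by
    intro p ν h
    rw [AdjoinRoot.lift_mk, eval_zmod]
  have hroot : ∀ (p : ℕ) (ν : ℤ), (p : ℤ) ∣ f.eval ν →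
      f.eval₂ (Int.castRingHom (ZMod p)) (ν : ZMod p) = 0 := by
    intro p ν h
    rw [eval_zmod, ZMod.intCast_zmod_eq_zero_iff_dvd]
    exact h
  by_cases hsq : IsSquare c
  · -- `κ(θ)` is a square
    obtain ⟨w, hw⟩ := hsq
    obtain ⟨n2, hn2, a2, ha2⟩ := hcof w
    have e2 : (n2 : AdjoinRoot f) ^ 2 * AdjoinRoot.mk f κ = a2 ^ 2 := by
      apply hinj
      rw [map_mul, map_pow, map_pow, ← ha2, map_intCast, ← hc, hw]
      ring
    refine ⟨K, inferInstance, inferInstance, B1 + n1.natAbs + n2.natAbs, fun p hp hpB => ?_,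
      Or.inl fun p hp hpB ν hν => ?_⟩
    · have : Fact p.Prime := ⟨hp⟩
      rw [hB1 p hp (by omega), card_homs_int]
    · have : Fact p.Prime := ⟨hp⟩
      have z1 : ((n1 : ℤ) : ZMod p) ≠ 0 := ne_zero_of_lt hn1 (by omega)
      have z2 : ((n2 : ℤ) : ZMod p) ≠ 0 := ne_zero_of_lt hn2 (by omega)
      set φ := AdjoinRoot.lift (Int.castRingHom (ZMod p)) (ν : ZMod p) (hroot p ν hν) with hφ
      have g1 : (n1 : ZMod p) = φ a1 * ((κ.eval ν : ℤ) : ZMod p) := by
        rw [← hval p ν (hroot p ν hν), ← hφ, ← map_mul, ← e1, map_intCast]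
      have g2 : (n2 : ZMod p) ^ 2 * ((κ.eval ν : ℤ) : ZMod p) = φ a2 ^ 2 := by
        rw [← hval p ν (hroot p ν hν), ← hφ, ← map_pow, ← e2, map_mul, map_pow, map_intCast]
      have g3 : ((κ.eval ν : ℤ) : ZMod p) ≠ 0 := by
        intro h
        rw [h, mul_zero] at g1
        exact z1 g1
      rw [← jacobiSym.legendreSym.to_jacobiSym, legendreSym.eq_one_iff p g3]
      refine ⟨φ a2 / (n2 : ZMod p), ?_⟩
      field_simp
      linear_combination g2
  · -- `κ(θ)` is not a square
    set m : K[X] := X ^ 2 - C c with hm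
    have hmi : Irreducible m := by
      apply X_pow_sub_C_irreducible_of_prime Nat.prime_two
      intro b hb
      exact hsq ⟨b, by rw [← hb, sq]⟩
    have hmf : Fact (Irreducible m) := ⟨hmi⟩
    have hmm : m.Monic := monic_X_pow_sub_C _ two_ne_zero
    set K' : Type := AdjoinRoot m with hK'
    have hfin : Module.Finite K K' := hmm.finite_adjoinRoot
    have hnf : NumberField K' := NumberField.of_module_finite K K'
    set m2 : (AdjoinRoot f)[X] := X ^ 2 - C (AdjoinRoot.mk f κ) with hm2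
    have hm2m : m2.Monic := monic_X_pow_sub_C _ two_ne_zero
    have hmap : m2.map ι = m := by
      rw [hm2, hm, Polynomial.map_sub, Polynomial.map_pow, Polynomial.map_X, Polynomial.map_C]
    set ι2 : AdjoinRoot m2 →+* K' := AdjoinRoot.map ι m2 m hmap.symm.dvd with hι2
    have hinj2 : Function.Injective ι2 := map_injective_monic ι hinj m2 hm2m m hmap _
    have hcof2 : Cofin ι2 := by
      refine cofin_of ι2 (AdjoinRoot.of m) (AdjoinRoot.root m) (fun x => ?_)
        ⟨AdjoinRoot.root m2, AdjoinRoot.map_root _ _ _ _⟩ ?_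
      · obtain ⟨n, hn, a, ha⟩ := hcof x
        refine ⟨n, hn, AdjoinRoot.of m2 a, ?_⟩
        have h1 : ι2 (AdjoinRoot.of m2 a) = AdjoinRoot.of m (ι a) := by
          rw [hι2, AdjoinRoot.map_of]
        rw [h1, ← ha, map_mul, map_intCast]
      · intro x
        obtain ⟨q, rfl⟩ := AdjoinRoot.mk_surjective x
        refine ⟨q, ?_⟩
        rw [← AdjoinRoot.algebraMap_eq, ← aeval_def, AdjoinRoot.aeval_eq]
    obtain ⟨B2, hB2⟩ := card_homs ι2 hinj2 hcof2 _ (closure_adjoinRoot m2 _ hgen)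
    refine ⟨K, inferInstance, inferInstance, B1 + B2 + 2, fun p hp hpB => ?_,
      Or.inr ⟨K', inferInstance, hnf, fun p hp hpB => ?_⟩⟩
    · have : Fact p.Prime := ⟨hp⟩
      rw [hB1 p hp (by omega), card_homs_int]
    · have : Fact p.Prime := ⟨hp⟩
      rw [hB2 p hp (by omega), Nat.card_congr (homEquiv m2 (ZMod p))]
      have : Fintype {y : ZMod p // f.eval₂ (Int.castRingHom (ZMod p)) y = 0} :=
        Fintype.ofFinite _
      have : Fintype (AdjoinRoot f →+* ZMod p) :=
        Fintype.ofEquiv _ (homEquivInt f (ZMod p)).symm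
      rw [Nat.card_sigma, ← Equiv.sum_comp (homEquivInt f (ZMod p)).symm]
      push_cast
      refine (sum_roots f p (fun ν => 1 + jacobiSym (κ.eval ν) p) _ ?_).symm
      intro y a hay
      have h1 : ∀ z : ZMod p, m2.eval₂ ((homEquivInt f (ZMod p)).symm y) z = 0 ↔
          z ^ 2 = ((κ.eval a : ℤ) : ZMod p) := by
        intro z
        have h2 : (homEquivInt f (ZMod p)).symm y (AdjoinRoot.mk f κ) =
            ((κ.eval a : ℤ) : ZMod p) := by
          show AdjoinRoot.lift (Int.castRingHom (ZMod p)) y.1 y.2 (AdjoinRoot.mk f κ) = _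
          rw [AdjoinRoot.lift_mk, ← hay, eval_zmod]
        rw [hm2, eval₂_sub, eval₂_pow, eval₂_X, eval₂_C, h2, sub_eq_zero]
      rw [← card_sq p (by omega)]
      congr 1
      exact Nat.card_congr (Equiv.subtypeEquivRight fun z => (h1 z).symm)

end Pool.Agent.L7h80.RP
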