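import Mathlib
import Pool.Agent.L7h19.RH.Avhr

/-!
# The average of a multiplicative function close to one over a residue class in a short interval

Part of project RP (helper19, MP_157626_nt).
-/

set_option autoImplicit false

namespace Pool.Agent.L7h80.RP

open Finset Pool.Agent.L7h19.RH

lemma card_modr3 {X q r d W : ℕ} (hd : d.Coprime q) :
    (((Icc 1 X).filter (fun v => W + v ≡ r [MOD q] ∧ d ∣ W + v)).card : ℝ) ≤
      (X : ℝ) / (q * d) + 1 := by
  rcases ((Icc 1 X).filter (fun v => W + v ≡ r [MOD q] ∧ d ∣ W + v)).eq_empty_or_nonempty with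
    h | ⟨w, hw⟩
  · rw [h, card_empty, Nat.cast_zero]
    positivity
  · rw [mem_filter] at hw
    have h1 : ((Icc 1 X).filter (fun v => W + v ≡ r [MOD q] ∧ d ∣ W + v)) ⊆
        (Icc 1 X).filter (fun v => v ≡ w [MOD (q * d)]) := by
      intro v hv
      rw [mem_filter] at hv ⊢
      refine ⟨hv.1, ?_⟩
      have h2 : W + v ≡ W + w [MOD (q * d)] := by
        rw [← Nat.modEq_and_modEq_iff_modEq_mul hd.symm]
        exact ⟨hv.2.1.trans hw.2.1.symm, ((Nat.modEq_zero_iff_dvd).2 hv.2.2).trans
          ((Nat.modEq_zero_iff_dvd).2 hw.2.2).symm⟩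
      exact Nat.ModEq.add_left_cancel' W h2
    have h2 := (Finset.card_le_card h1).trans (card_modc X (q * d) w)
    have h3 : (((Icc 1 X).filter (fun v => W + v ≡ r [MOD q] ∧ d ∣ W + v)).card : ℝ) ≤
        ((X / (q * d) : ℕ) : ℝ) + 1 := by exact_mod_cast h2
    have h4 : ((X / (q * d) : ℕ) : ℝ) ≤ (X : ℝ) / ((q * d : ℕ) : ℝ) := Nat.cast_div_le
    rw [Nat.cast_mul] at h4
    linarith

theorem avhr0 (c z : ℕ) (hz : 2 * c + 2 ≤ z) : ∃ C : ℝ, 0 ≤ C ∧ ∀ X q r W : ℕ, 1 ≤ q →
    r.Coprime q → q ^ 2 ≤ X →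
    ∑ v ∈ (Icc 1 X).filter (fun v => W + v ≡ r [MOD q]),
      ∏ p ∈ (W + v).primeFactors.filter (fun p => z < p ∧ p ≤ X),
      (p : ℝ) / ((p : ℝ) - c) ≤ C * (X / q) := by
  have hsq : Summable (fun n : ℕ => 1 / (n : ℝ) ^ 2) := Real.summable_one_div_nat_pow.2 (by norm_num)
  set S2 : ℝ := ∑' n : ℕ, 1 / (n : ℝ) ^ 2 with hS2
  obtain ⟨CM, hCM⟩ := Pool.Agent.Helper256.KM.mertens_inv
  obtain ⟨CL, hCL0, hCL⟩ := log_pow_sqrt (2 * c)
  set CE : ℝ := Real.exp (2 * c * (|CM| + 2)) * (CL + 1) with hCE
  have hCE0 : 0 ≤ CE := by positivity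
  refine ⟨Real.exp (2 * c * S2) + CE, by positivity, ?_⟩
  intro X q r W hq hrq hqX
  have hX1 : 1 ≤ X := le_trans (Nat.one_le_pow _ _ hq) hqX
  set Pr : Finset ℕ := (Icc 1 X).filter (fun p => p.Prime ∧ z < p) with hPr
  set g : ℕ → ℝ := fun p => (c : ℝ) / ((p : ℝ) - c) with hg
  have hpc : ∀ p ∈ Pr, (p : ℝ) / 2 ≤ (p : ℝ) - c ∧ 0 < (p : ℝ) := by
    intro p hp
    rw [hPr, mem_filter] at hp
    have h1 : 2 * c + 2 < p := lt_of_le_of_lt hz hp.2.2
    have h2 : 2 * (c : ℝ) + 2 < p := by exact_mod_cast h1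
    have h3 : (0 : ℝ) ≤ c := Nat.cast_nonneg c
    exact ⟨by linarith, by linarith⟩
  have hg0 : ∀ p ∈ Pr, 0 ≤ g p := by
    intro p hp
    have := hpc p hp
    exact div_nonneg (Nat.cast_nonneg c) (by linarith)
  have hg2 : ∀ p ∈ Pr, g p ≤ 2 * c * (1 / (p : ℝ)) := by
    intro p hp
    have h2 := hpc p hp
    simp only [hg]
    calc (c : ℝ) / ((p : ℝ) - c) ≤ c / ((p : ℝ) / 2) :=
          div_le_div_of_nonneg_left (Nat.cast_nonneg c) (by linarith [h2.2]) h2.1
      _ = 2 * c * (1 / (p : ℝ)) := by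
          have := h2.2.ne'
          field_simp
  -- expansion
  have hexp : ∀ v ∈ (Icc 1 X).filter (fun v => W + v ≡ r [MOD q]),
      ∏ p ∈ (W + v).primeFactors.filter (fun p => z < p ∧ p ≤ X),
      (p : ℝ) / ((p : ℝ) - c) = ∑ T ∈ Pr.powerset,
        if T ⊆ (W + v).primeFactors.filter (fun p => z < p ∧ p ≤ X) then ∏ p ∈ T, g p else 0 := by
    intro v hv
    rw [mem_filter, mem_Icc] at hv
    have hsub : (W + v).primeFactors.filter (fun p => z < p ∧ p ≤ X) ⊆ Pr := by
      intro p hp
      rw [mem_filter, Nat.mem_primeFactors] at hp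
      rw [hPr, mem_filter, mem_Icc]
      exact ⟨⟨hp.1.1.one_le, hp.2.2⟩, hp.1.1, hp.2.1⟩
    have h1 : ∏ p ∈ (W + v).primeFactors.filter (fun p => z < p ∧ p ≤ X), (p : ℝ) / ((p : ℝ) - c)
        = ∏ p ∈ (W + v).primeFactors.filter (fun p => z < p ∧ p ≤ X), (1 + g p) := by
      apply prod_congr rfl
      intro p hp
      have h2 := hpc p (hsub hp)
      have h3 : (p : ℝ) - c ≠ 0 := by
        have := h2.1
        have := h2.2
        linarith
      simp only [hg]
      field_simp
      ring
    rw [h1, prod_one_add, ← sum_filter]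
    apply sum_congr _ (fun _ _ => rfl)
    ext T
    simp only [mem_powerset, mem_filter]
    exact ⟨fun h => ⟨h.trans hsub, h⟩, fun h => h.2⟩
  rw [sum_congr rfl hexp, sum_comm]
  -- each subset
  have hT : ∀ T ∈ Pr.powerset, (∑ v ∈ (Icc 1 X).filter (fun v => W + v ≡ r [MOD q]),
      if T ⊆ (W + v).primeFactors.filter (fun p => z < p ∧ p ≤ X) then ∏ p ∈ T, g p else 0)
      ≤ X / q * ∏ p ∈ T, (g p / p) + ∏ p ∈ T, g p := by
    intro T hT
    rw [mem_powerset] at hT
    rw [← sum_filter, sum_const, nsmul_eq_mul]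
    have hG0 : 0 ≤ ∏ p ∈ T, g p := prod_nonneg fun p hp => hg0 p (hT hp)
    have e : ∏ p ∈ T, (g p / (p : ℝ)) = (∏ p ∈ T, g p) / ∏ p ∈ T, (p : ℝ) :=
      prod_div_distrib g (fun p : ℕ => (p : ℝ))
    have hpp : 0 ≤ ∏ p ∈ T, (p : ℝ) := prod_nonneg fun _ _ => Nat.cast_nonneg _
    by_cases hTq : (∏ p ∈ T, p).Coprime q
    · have hcard : ((((Icc 1 X).filter (fun v => W + v ≡ r [MOD q])).filter
          (fun v => T ⊆ (W + v).primeFactors.filter (fun p => z < p ∧ p ≤ X))).card : ℝ)
          ≤ (X : ℝ) / (q * ((∏ p ∈ T, p : ℕ) : ℝ)) + 1 := by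
        refine le_trans ?_ (card_modr3 hTq (r := r) (W := W))
        norm_cast
        apply card_le_card
        intro v hv
        rw [mem_filter, mem_filter] at hv
        rw [mem_filter]
        refine ⟨hv.1.1, hv.1.2, ?_⟩
        apply prod_primes_dvd
        · intro p hp
          exact ((mem_filter.1 (hT hp)).2.1).prime
        · intro p hp
          have := hv.2 hp
          rw [mem_filter, Nat.mem_primeFactors] at this
          exact this.1.2.1
      calc ((((Icc 1 X).filter (fun v => W + v ≡ r [MOD q])).filter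
          (fun v => T ⊆ (W + v).primeFactors.filter (fun p => z < p ∧ p ≤ X))).card : ℝ) * ∏ p ∈ T, g p
          ≤ ((X : ℝ) / (q * ((∏ p ∈ T, p : ℕ) : ℝ)) + 1) * ∏ p ∈ T, g p :=
            mul_le_mul_of_nonneg_right hcard hG0
        _ = X / q * ∏ p ∈ T, (g p / p) + ∏ p ∈ T, g p := by
            rw [e]
            push_cast
            rw [add_mul, one_mul, div_mul_div_comm, div_mul_eq_mul_div]
    · have hempty : ((Icc 1 X).filter (fun v => W + v ≡ r [MOD q])).filter
          (fun v => T ⊆ (W + v).primeFactors.filter (fun p => z < p ∧ p ≤ X)) = ∅ := by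
        rw [filter_eq_empty_iff]
        intro v hv hTv
        rw [mem_filter] at hv
        apply hTq
        have h1 : (W + v).Coprime q := by
          rw [Nat.coprime_iff_gcd_eq_one, hv.2.gcd_eq]
          exact hrq
        apply Nat.Coprime.prod_left
        intro p hp
        have := hTv hp
        rw [mem_filter, Nat.mem_primeFactors] at this
        exact h1.coprime_dvd_left this.1.2.1
      rw [hempty, card_empty, Nat.cast_zero, zero_mul]
      rw [e]
      positivity
  refine (sum_le_sum hT).trans ?_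
  rw [sum_add_distrib, ← mul_sum, add_mul]
  have hXq : (0 : ℝ) ≤ (X : ℝ) / q := by positivity
  apply add_le_add
  · rw [mul_comm]
    apply mul_le_mul_of_nonneg_right _ hXq
    rw [← prod_one_add]
    have hfac : ∀ p ∈ Pr, 1 + g p / p ≤ Real.exp (2 * c * (1 / (p : ℝ) ^ 2)) := by
      intro p hp
      have h2 := hpc p hp
      have h3 : g p / p ≤ 2 * c * (1 / (p : ℝ) ^ 2) := by
        calc g p / p ≤ 2 * c * (1 / (p : ℝ)) / p :=
              div_le_div_of_nonneg_right (hg2 p hp) h2.2.le
          _ = 2 * c * (1 / (p : ℝ) ^ 2) := by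
              have := h2.2.ne'
              field_simp
      have h4 := Real.add_one_le_exp (2 * c * (1 / (p : ℝ) ^ 2))
      linarith
    calc ∏ p ∈ Pr, (1 + g p / p) ≤ ∏ p ∈ Pr, Real.exp (2 * c * (1 / (p : ℝ) ^ 2)) := by
          apply prod_le_prod
          · intro p hp
            have := hg0 p hp
            have := (hpc p hp).2
            positivity
          · exact hfac
      _ = Real.exp (∑ p ∈ Pr, 2 * c * (1 / (p : ℝ) ^ 2)) := (Real.exp_sum _ _).symm
      _ ≤ Real.exp (2 * c * S2) := by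
          apply Real.exp_le_exp.2
          rw [← mul_sum]
          apply mul_le_mul_of_nonneg_left _ (by positivity)
          exact hsq.sum_le_tsum Pr (fun n _ => by positivity)
  · rw [← prod_one_add]
    have hX1' : (1 : ℝ) ≤ X := by exact_mod_cast hX1
    have hsqrt : Real.sqrt X ≤ X / q := by
      have hq0 : (0 : ℝ) < q := by exact_mod_cast hq
      rw [le_div_iff₀ hq0]
      have h1 : (q : ℝ) ≤ Real.sqrt X := by
        apply Real.le_sqrt_of_sq_le
        exact_mod_cast hqX
      calc Real.sqrt X * q ≤ Real.sqrt X * Real.sqrt X :=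
            mul_le_mul_of_nonneg_left h1 (Real.sqrt_nonneg _)
        _ = X := Real.mul_self_sqrt (by linarith)
    have hprod : ∏ p ∈ Pr, (1 + g p) ≤ Real.exp (2 * c * ∑ p ∈ Pr, 1 / (p : ℝ)) := by
      rw [mul_sum, Real.exp_sum]
      apply prod_le_prod
      · intro p hp
        have := hg0 p hp
        positivity
      · intro p hp
        have h4 := Real.add_one_le_exp (2 * c * (1 / (p : ℝ)))
        have h5 := hg2 p hp
        linarith
    have hsqrt1 : 1 ≤ Real.sqrt X := by
      rw [Real.one_le_sqrt]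
      exact hX1'
    by_cases hX3 : 3 ≤ X
    · have hPrle : ∑ p ∈ Pr, 1 / (p : ℝ) ≤ Real.log (Real.log X) + |CM| := by
        have h1 := (abs_le.1 (hCM X hX3)).2
        have h2 : ∑ p ∈ Pr, 1 / (p : ℝ) ≤ ∑ p ∈ (Finset.Icc 1 X).filter Nat.Prime, (1 : ℝ) / p := by
          apply sum_le_sum_of_subset_of_nonneg
          · intro p hp
            rw [hPr, mem_filter] at hp
            rw [mem_filter]
            exact ⟨hp.1, hp.2.1⟩
          · intro p _ _
            positivity
        have h3 := le_abs_self CM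
        linarith
      have hlog : 1 ≤ Real.log X := by
        have hl3 : 1 ≤ Real.log 3 := by
          rw [Real.le_log_iff_exp_le (by norm_num)]
          linarith [Real.exp_one_lt_d9]
        exact hl3.trans (Real.log_le_log (by norm_num) (by exact_mod_cast hX3))
      calc ∏ p ∈ Pr, (1 + g p) ≤ Real.exp (2 * c * ∑ p ∈ Pr, 1 / (p : ℝ)) := hprod
        _ ≤ Real.exp (2 * c * (Real.log (Real.log X) + |CM|)) := by
            apply Real.exp_le_exp.2
            apply mul_le_mul_of_nonneg_left hPrle (by positivity)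
        _ = Real.exp (2 * c * |CM|) * (Real.log X) ^ (2 * c) := by
            rw [mul_add, Real.exp_add, mul_comm (Real.exp _)]
            congr 1
            rw [mul_comm, Real.exp_mul, Real.exp_log (by linarith)]
            rw [← Real.rpow_natCast]
            push_cast
            rfl
        _ ≤ Real.exp (2 * c * (|CM| + 2)) * ((CL + 1) * Real.sqrt X) := by
            apply mul_le_mul
            · apply Real.exp_le_exp.2
              have : (0 : ℝ) ≤ c := Nat.cast_nonneg c
              nlinarith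
            · have := hCL X hX1
              nlinarith
            · positivity
            · positivity
        _ ≤ CE * (X / q) := by
            rw [hCE, mul_assoc (Real.exp _)]
            apply mul_le_mul_of_nonneg_left _ (Real.exp_pos _).le
            apply mul_le_mul_of_nonneg_left hsqrt (by positivity)
    · have hPr0 : ∑ p ∈ Pr, 1 / (p : ℝ) ≤ 2 := by
        have hP0 : Pr = ∅ := by
          rw [hPr, filter_eq_empty_iff]
          intro p hp h
          rw [mem_Icc] at hp
          omega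
        rw [hP0]
        simp
      calc ∏ p ∈ Pr, (1 + g p) ≤ Real.exp (2 * c * ∑ p ∈ Pr, 1 / (p : ℝ)) := hprod
        _ ≤ Real.exp (2 * c * (|CM| + 2)) := by
            apply Real.exp_le_exp.2
            apply mul_le_mul_of_nonneg_left _ (by positivity)
            have := abs_nonneg CM
            linarith
        _ ≤ Real.exp (2 * c * (|CM| + 2)) * ((CL + 1) * (X / q)) := by
            apply le_mul_of_one_le_right (by positivity)
            nlinarith
        _ = CE * (X / q) := by rw [hCE]; ring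

/-- few prime factors are large -/
lemma few_large {X μ n : ℕ} (hX : 1 ≤ X) (hn0 : 0 < n) (hμ : 1 ≤ μ) (hn : n ≤ 2 * X ^ μ) :
    (n.primeFactors.filter (fun p => X < p)).card ≤ μ := by
  by_contra hcon
  push Not at hcon
  have h1 : ∏ p ∈ n.primeFactors.filter (fun p => X < p), p ≤ n := by
    apply Nat.le_of_dvd hn0
    exact (prod_dvd_prod_of_subset _ _ _ (filter_subset _ _)).trans (Nat.prod_primeFactors_dvd n)
  have h2 : (X + 1) ^ (n.primeFactors.filter (fun p => X < p)).card ≤
      ∏ p ∈ n.primeFactors.filter (fun p => X < p), p := by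
    rw [← prod_const]
    exact prod_le_prod' fun p hp => (mem_filter.1 hp).2
  have h3 : (X + 1) ^ (μ + 1) ≤ (X + 1) ^ (n.primeFactors.filter (fun p => X < p)).card :=
    Nat.pow_le_pow_right (by omega) hcon
  have h4 : X ^ μ < (X + 1) ^ μ := Nat.pow_lt_pow_left (by omega) (by omega)
  have h5 : 2 * (X + 1) ^ μ ≤ (X + 1) ^ (μ + 1) := by
    rw [pow_succ, mul_comm]
    exact Nat.mul_le_mul_left _ (by omega)
  omega

theorem avhr3 (c z μ : ℕ) (hz : 2 * c + 2 ≤ z) (hμ : 1 ≤ μ) : ∃ C : ℝ, 0 ≤ C ∧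
    ∀ X q r W : ℕ, 1 ≤ q → r.Coprime q → q ^ 2 ≤ X → W ≤ X ^ μ →
    ∑ v ∈ (Icc 1 X).filter (fun v => W + v ≡ r [MOD q]),
      ∏ p ∈ (W + v).primeFactors.filter (fun p => z < p),
      (p : ℝ) / ((p : ℝ) - c) ≤ C * (X / q) := by
  obtain ⟨C, hC, h⟩ := avhr0 c z hz
  refine ⟨2 ^ μ * C, by positivity, fun X q r W hq hrq hqX hW => ?_⟩
  have hX1 : 1 ≤ X := le_trans (Nat.one_le_pow _ _ hq) hqX
  have hfac : ∀ p : ℕ, z < p → (1 : ℝ) ≤ (p : ℝ) / ((p : ℝ) - c) ∧ (p : ℝ) / ((p : ℝ) - c) ≤ 2 := by
    intro p hp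
    have h1 : 2 * c + 2 < p := lt_of_le_of_lt hz hp
    have h2 : 2 * (c : ℝ) + 2 < p := by exact_mod_cast h1
    have h3 : (0 : ℝ) ≤ c := Nat.cast_nonneg c
    have h4 : (0 : ℝ) < (p : ℝ) - c := by linarith
    rw [le_div_iff₀ h4, div_le_iff₀ h4]
    constructor <;> linarith
  have hv : ∀ v ∈ (Icc 1 X).filter (fun v => W + v ≡ r [MOD q]),
      ∏ p ∈ (W + v).primeFactors.filter (fun p => z < p), (p : ℝ) / ((p : ℝ) - c) ≤
      2 ^ μ * ∏ p ∈ (W + v).primeFactors.filter (fun p => z < p ∧ p ≤ X),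
        (p : ℝ) / ((p : ℝ) - c) := by
    intro v hv
    rw [mem_filter, mem_Icc] at hv
    have h1 : (W + v).primeFactors.filter (fun p => z < p) =
        (W + v).primeFactors.filter (fun p => z < p ∧ X < p) ∪
        (W + v).primeFactors.filter (fun p => z < p ∧ p ≤ X) := by
      ext p
      simp only [mem_filter, mem_union]
      constructor
      · rintro ⟨h1, h2⟩
        rcases lt_or_ge X p with h3 | h3
        · exact Or.inl ⟨h1, h2, h3⟩
        · exact Or.inr ⟨h1, h2, h3⟩
      · rintro (⟨h1, h2, -⟩ | ⟨h1, h2, -⟩)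
        · exact ⟨h1, h2⟩
        · exact ⟨h1, h2⟩
    rw [h1, prod_union]
    · apply mul_le_mul_of_nonneg_right
      · have h2 : ((W + v).primeFactors.filter (fun p => z < p ∧ X < p)).card ≤ μ := by
          refine le_trans (card_le_card ?_) (few_large hX1 (by omega) hμ (n := W + v) ?_)
          · intro p hp
            rw [mem_filter] at hp ⊢
            exact ⟨hp.1, hp.2.2⟩
          · have h3 : X ≤ X ^ μ := Nat.le_self_pow (by omega) X
            omega
        calc ∏ p ∈ (W + v).primeFactors.filter (fun p => z < p ∧ X < p), (p : ℝ) / ((p : ℝ) - c)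
            ≤ ∏ p ∈ (W + v).primeFactors.filter (fun p => z < p ∧ X < p), (2 : ℝ) := by
              apply prod_le_prod
              · intro p hp
                linarith [(hfac p (mem_filter.1 hp).2.1).1]
              · intro p hp
                exact (hfac p (mem_filter.1 hp).2.1).2
          _ = 2 ^ ((W + v).primeFactors.filter (fun p => z < p ∧ X < p)).card := prod_const _
          _ ≤ 2 ^ μ := pow_le_pow_right₀ one_le_two h2
      · apply prod_nonneg
        intro p hp
        linarith [(hfac p (mem_filter.1 hp).2.1).1]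
    · rw [disjoint_left]
      intro p hp hp'
      rw [mem_filter] at hp hp'
      omega
  refine (sum_le_sum hv).trans ?_
  rw [← mul_sum, mul_assoc]
  exact mul_le_mul_of_nonneg_left (h X q r W hq hrq hqX) (by positivity)

end Pool.Agent.L7h80.RP
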