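import Mathlib
import Pool.Agent.L7h89.RP.Psv

/-!
# Upper bound sieve in a residue class, uniformly in a family of tuples of polynomials

Part of project RP (helper19, MP_157626_nt), from `Pool.Agent.L7h89.RP.Psv`: the sieved tuple `g` has
the same numbers of roots as a fixed tuple `f` modulo the primes that do not divide `W`, and the
bound is uniform in `g` and `W`.
-/

set_option autoImplicit false

namespace Pool.Agent.L7h80.RP

open Finset Polynomial Pool.Agent.W262.RK Pool.Agent.L7h89.RP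
open Pool.Agent.H474R2.PG (rho)

variable {J : Type} [Fintype J] [DecidableEq J]

set_option linter.unusedSectionVars false

/-- the sieving condition -/
def QW (f : J → ℤ[X]) (z y : ℕ) (r : ℤ) (m W : ℕ) (p n : ℕ) : Prop :=
  p ∈ PS z y ∧ ¬ p ∣ m * W ∧ ∃ j, (p : ℤ) ∣ (f j).eval (r + m * ((n : ℤ) - 1))

lemma QW_per (f : J → ℤ[X]) (z y : ℕ) (r : ℤ) (m W p n : ℕ) :
    QW f z y r m W p n ↔ QW f z y r m W p (n % p) := by
  unfold QW
  have h1 : (p : ℤ) ∣ (r + m * ((n : ℤ) - 1)) - (r + m * (((n % p : ℕ) : ℤ) - 1)) := by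
    have h2 : (p : ℤ) ∣ (n : ℤ) - ((n % p : ℕ) : ℤ) := by
      push_cast
      exact Int.dvd_self_sub_emod
    have e : (r + m * ((n : ℤ) - 1)) - (r + m * (((n % p : ℕ) : ℤ) - 1)) =
        m * ((n : ℤ) - ((n % p : ℕ) : ℤ)) := by ring
    rw [e]
    exact h2.mul_left _
  constructor
  · rintro ⟨a, b, j, hj⟩
    exact ⟨a, b, j, (eval_congr (f j) h1).1 hj⟩
  · rintro ⟨a, b, j, hj⟩
    exact ⟨a, b, j, (eval_congr (f j) h1).2 hj⟩

open Classical in
lemma count_leW (f : J → ℤ[X]) (z y X m W r : ℕ) :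
    ((Icc 1 X).filter (fun t : ℕ => t ≡ r [MOD m] ∧ ∀ p ∈ PS z y, ¬ p ∣ m * W →
      ∀ j, ¬ (p : ℤ) ∣ (f j).eval (t : ℤ))).card ≤
      ((Icc 1 (X / m + 1)).filter
        (fun n : ℕ => ∀ p ∈ Pool.Agent.H373R2.T7.pz y,
          ¬ QW f z y ((r % m : ℕ) : ℤ) m W p n)).card := by
  apply card_le_card_of_injOn (fun t => t / m + 1)
  · intro t ht
    have ht' := Finset.mem_coe.1 ht
    have htX := mem_Icc.1 (mem_filter.1 ht').1
    obtain ⟨hmod, hnd⟩ := (mem_filter.1 ht').2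
    rw [Finset.mem_coe, mem_filter, mem_Icc]
    refine ⟨⟨Nat.le_add_left 1 _, Nat.succ_le_succ (Nat.div_le_div_right htX.2)⟩, fun p _ hQ => ?_⟩
    obtain ⟨hpPS, hpm, j, hj⟩ := hQ
    have e : ((r % m : ℕ) : ℤ) + (m : ℤ) * (((t / m + 1 : ℕ) : ℤ) - 1) = (t : ℤ) := by
      have h1 : t % m = r % m := hmod
      rw [← h1]
      have := Nat.mod_add_div t m
      push_cast
      zify at this
      linarith
    rw [e] at hj
    exact hnd p hpPS hpm j hj
  · intro a ha b hb hab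
    have ha' : a % m = r % m := (mem_filter.1 (Finset.mem_coe.1 ha)).2.1
    have hb' : b % m = r % m := (mem_filter.1 (Finset.mem_coe.1 hb)).2.1
    simp only at hab
    have h1 : a / m = b / m := by omega
    rw [← Nat.mod_add_div a m, ← Nat.mod_add_div b m, ha', hb', h1]

set_option maxHeartbeats 1000000 in
/-- upper bound sieve in a residue class, uniformly in a family of tuples of polynomials -/
theorem psvW (f : J → ℤ[X]) (c z : ℕ) (hirr : ∀ j, Irreducible (f j))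
    (hpos : ∀ j, 0 < (f j).natDegree) (hz : 2 * c + 2 ≤ z)
    (hrho : ∀ p : ℕ, p.Prime → z < p → ∑ j, rho (f j) p ≤ c) :
    ∃ (C : ℝ) (K y0 : ℕ), 0 ≤ C ∧ 1 ≤ K ∧ ∀ (g : J → ℤ[X]) (W : ℕ), 1 ≤ W →
    (∀ p : ℕ, p.Prime → z < p → ¬ p ∣ W → ∀ j, rho (g j) p = rho (f j) p) →
    (∀ p : ℕ, p.Prime → z < p → ¬ p ∣ W → ∀ j l, j ≠ l → ∀ t : ℤ, (p : ℤ) ∣ (g j).eval t →
      ¬ (p : ℤ) ∣ (g l).eval t) → ∀ X y : ℕ, y0 ≤ y → z < y → y ^ K ≤ X →
    ∀ m r : ℕ, 1 ≤ m → m ^ 4 ≤ X →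
    (((Icc 1 X).filter (fun t : ℕ => t ≡ r [MOD m] ∧ ∀ p ∈ PS z y, ¬ p ∣ m * W →
      ∀ j, ¬ (p : ℤ) ∣ (g j).eval (t : ℤ))).card : ℝ) ≤
      C * (X / m) * ((∏ p ∈ m.primeFactors.filter (fun p => p ∈ PS z y),
        (p : ℝ) / ((p : ℝ) - c)) * (∏ p ∈ W.primeFactors.filter (fun p => z < p),
        (p : ℝ) / ((p : ℝ) - c))) / (Real.log y) ^ (Fintype.card J) := by
  classical
  obtain ⟨K', x0', hK', hF⟩ := Pool.Agent.H373R2.T7.sys_fund (c + 1) (by omega) 1 one_pos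
  obtain ⟨C1, hC1, hP⟩ := prod_le f c z hirr hpos hz hrho
  obtain ⟨κ, hκ⟩ : ∃ κ, κ = Fintype.card J := ⟨_, rfl⟩
  rw [← hκ] at hP ⊢
  refine ⟨4 * C1 + 1, 2 * (K' + κ), max x0' 3, by positivity, by omega,
    fun g W hW1 hgf hcop X y hy hzy hyX m r hm1 hmX4 => ?_⟩
  have hy0 : x0' ≤ y := (le_max_left _ _).trans hy
  have hy3 : 3 ≤ y := (le_max_right _ _).trans hy
  have hmpos : 0 < m := hm1
  have hm0 : m ≠ 0 := hmpos.ne'
  have hW0 : W ≠ 0 := by omega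
  have hmW0 : m * W ≠ 0 := mul_ne_zero hm0 hW0
  have hr := count_leW g z y X m W r
  have hnu : ∀ p ∈ PS z y, ¬ p ∣ m * W →
      Pool.Agent.H373R2.T7.nuB (QW g z y ((r % m : ℕ) : ℤ) m W) p = ∑ j, rho (f j) p := by
    intro p hp hpmW
    have hpm : ¬ p ∣ m := fun h => hpmW (h.mul_right _)
    have hpW : ¬ p ∣ W := fun h => hpmW (h.mul_left _)
    have hpp := (mem_PS.1 hp).2
    rw [← sum_congr rfl (fun j _ => hgf p hpp (mem_PS.1 hp).1.1 hpW j)]
    rw [← card_roots g p (hcop p hpp (mem_PS.1 hp).1.1 hpW)]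
    rw [← affine_card p hpp (fun t : ℤ => ∃ j, (p : ℤ) ∣ (g j).eval t) ?_
      ((r % m : ℕ) : ℤ) (m : ℤ) (fun h => hpm (Int.natCast_dvd_natCast.1 h))]
    · unfold Pool.Agent.H373R2.T7.nuB
      congr 1
      apply filter_congr
      intro n _
      unfold QW
      exact ⟨fun h => h.2.2, fun h => ⟨hp, hpmW, h⟩⟩
    · intro a b hab
      constructor
      · rintro ⟨j, hj⟩
        exact ⟨j, (eval_congr (g j) hab).1 hj⟩
      · rintro ⟨j, hj⟩
        exact ⟨j, (eval_congr (g j) hab).2 hj⟩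
  have hnu0 : ∀ p, ¬ (p ∈ PS z y ∧ ¬ p ∣ m * W) →
      Pool.Agent.H373R2.T7.nuB (QW g z y ((r % m : ℕ) : ℤ) m W) p = 0 := by
    intro p hp
    unfold Pool.Agent.H373R2.T7.nuB
    rw [card_eq_zero, filter_eq_empty_iff]
    intro n _ hn
    exact hp ⟨hn.1, hn.2.1⟩
  have hPer : Pool.Agent.H373R2.T7.PerB (QW g z y ((r % m : ℕ) : ℤ) m W) (c + 1) := by
    refine ⟨fun p n => QW_per g z y _ m W p n, fun p hpp => ?_⟩
    by_cases h : p ∈ PS z y ∧ ¬ p ∣ m * W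
    · rw [hnu p h.1 h.2]
      exact (hrho p hpp (mem_PS.1 h.1).1.1).trans (Nat.le_succ c)
    · rw [hnu0 p h]
      exact Nat.zero_le _
  have hfund := hF (y ^ K') y hy0 le_rfl (QW g z y ((r % m : ℕ) : ℤ) m W) hPer (X / m + 1)
  obtain ⟨γ, hγ⟩ : ∃ γ : ℕ → ℝ, γ = fun p => 1 - ((∑ j, rho (f j) p : ℕ) : ℝ) / p := ⟨_, rfl⟩
  have hprod : ∏ p ∈ Pool.Agent.H373R2.T7.pz y,
      (1 - ((Pool.Agent.H373R2.T7.nuB (QW g z y ((r % m : ℕ) : ℤ) m W) p : ℕ) : ℝ) / p) =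
      ∏ p ∈ (PS z y).filter (fun p => ¬ p ∣ m * W), γ p := by
    have h1 : ∏ p ∈ (PS z y).filter (fun p => ¬ p ∣ m * W),
        (1 - ((Pool.Agent.H373R2.T7.nuB (QW g z y ((r % m : ℕ) : ℤ) m W) p : ℕ) : ℝ) / p) =
        ∏ p ∈ Pool.Agent.H373R2.T7.pz y,
      (1 - ((Pool.Agent.H373R2.T7.nuB (QW g z y ((r % m : ℕ) : ℤ) m W) p : ℕ) : ℝ) / p) := by
      apply prod_subset
      · intro p hp
        rw [mem_filter, mem_PS] at hp
        exact Pool.Agent.H373R2.T7.mem_pz.2 ⟨hp.1.1.2, hp.1.2⟩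
      · intro p _ hp
        rw [mem_filter] at hp
        rw [hnu0 p hp]
        simp
    rw [← h1]
    refine prod_congr rfl fun p hp => ?_
    rw [mem_filter] at hp
    rw [hnu p hp.1 hp.2, hγ]
  rw [hprod] at hfund
  obtain ⟨A, hA⟩ : ∃ A : ℝ, A = ∏ p ∈ (PS z y).filter (fun p => ¬ p ∣ m * W), γ p :=
    ⟨_, rfl⟩
  obtain ⟨B, hB⟩ : ∃ B : ℝ, B = ∏ p ∈ (m * W).primeFactors.filter (fun p => p ∈ PS z y), γ p :=
    ⟨_, rfl⟩
  obtain ⟨D', hD'⟩ : ∃ D' : ℝ, D' = ∏ p ∈ (m * W).primeFactors.filter (fun p => p ∈ PS z y),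
    ((p : ℝ) / ((p : ℝ) - c)) := ⟨_, rfl⟩
  obtain ⟨D, hD⟩ : ∃ D : ℝ, D = (∏ p ∈ m.primeFactors.filter (fun p => p ∈ PS z y),
    ((p : ℝ) / ((p : ℝ) - c))) * (∏ p ∈ W.primeFactors.filter (fun p => z < p),
        (p : ℝ) / ((p : ℝ) - c)) := ⟨_, rfl⟩
  have hzc' : ∀ p : ℕ, z < p → (c : ℝ) + 1 ≤ p := by
    intro p h1
    exact_mod_cast (by omega : c + 1 ≤ p)
  have hzc : ∀ p ∈ PS z y, (c : ℝ) + 1 ≤ p := fun p hp => hzc' p (mem_PS.1 hp).1.1
  have hgc : ∀ p ∈ PS z y, 1 - (c : ℝ) / p ≤ γ p := by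
    intro p hp
    have hp0 : (0 : ℝ) < p := by exact_mod_cast (mem_PS.1 hp).2.pos
    rw [hγ]
    simp only
    have h1 : ((∑ j, rho (f j) p : ℕ) : ℝ) ≤ c := by
      exact_mod_cast hrho p (mem_PS.1 hp).2 (mem_PS.1 hp).1.1
    have h2 : ((∑ j, rho (f j) p : ℕ) : ℝ) / p ≤ (c : ℝ) / p :=
      div_le_div_of_nonneg_right h1 hp0.le
    linarith
  have hcpos : ∀ p ∈ PS z y, 0 < 1 - (c : ℝ) / p := by
    intro p hp
    have h1 := hzc p hp
    have hp0 : (0 : ℝ) < p := by exact_mod_cast (mem_PS.1 hp).2.pos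
    rw [sub_pos, div_lt_one hp0]
    linarith
  have hfpos : ∀ p ∈ PS z y, 0 < γ p := fun p hp => lt_of_lt_of_le (hcpos p hp) (hgc p hp)
  have hApos : 0 < A := by
    rw [hA]; exact prod_pos fun p hp => hfpos p (mem_filter.1 hp).1
  have hBpos : 0 < B := by
    rw [hB]; exact prod_pos fun p hp => hfpos p (mem_filter.1 hp).2
  have hAB : A * B = ∏ p ∈ PS z y, γ p := by
    have h1 : (m * W).primeFactors.filter (fun p => p ∈ PS z y) =
        (PS z y).filter (fun p => ¬ ¬ p ∣ m * W) := by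
      ext p
      rw [mem_filter, mem_filter, not_not]
      constructor
      · rintro ⟨hp, hp2⟩
        exact ⟨hp2, Nat.dvd_of_mem_primeFactors hp⟩
      · rintro ⟨h2, h3⟩
        exact ⟨Nat.mem_primeFactors.2 ⟨(mem_PS.1 h2).2, h3, hmW0⟩, h2⟩
    rw [hA, hB, h1]
    exact prod_filter_mul_prod_filter_not _ _ _
  have hfac1 : ∀ p : ℕ, z < p → (1 : ℝ) ≤ (p : ℝ) / ((p : ℝ) - c) := by
    intro p hp
    have h1 := hzc' p hp
    have h2 : 0 < (p : ℝ) - c := by linarith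
    rw [le_div_iff₀ h2]
    have : (0 : ℝ) ≤ c := Nat.cast_nonneg c
    linarith
  have hDB' : 1 ≤ D' * B := by
    rw [hD', hB, ← prod_mul_distrib]
    have h1 : ∀ p ∈ (m * W).primeFactors.filter (fun p => p ∈ PS z y),
        (1 : ℝ) ≤ (p : ℝ) / ((p : ℝ) - c) * γ p := by
      intro p hp
      have hpP := (mem_filter.1 hp).2
      have h1 := hzc p hpP
      have hp0 : (0 : ℝ) < p := by exact_mod_cast (mem_PS.1 hpP).2.pos
      have h2 : 0 < (p : ℝ) - c := by linarith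
      calc (1 : ℝ) = (p : ℝ) / ((p : ℝ) - c) * (1 - (c : ℝ) / p) := by field_simp
        _ ≤ _ := mul_le_mul_of_nonneg_left (hgc p hpP) (by positivity)
    calc (1 : ℝ) = ∏ p ∈ (m * W).primeFactors.filter (fun p => p ∈ PS z y), (1 : ℝ) := by
          rw [prod_const_one]
      _ ≤ _ := prod_le_prod (fun _ _ => zero_le_one) h1
  have hP1 : ∀ (S : Finset ℕ), (∀ p ∈ S, z < p) → (1 : ℝ) ≤ ∏ p ∈ S, (p : ℝ) / ((p : ℝ) - c) := by
    intro S hS
    calc (1 : ℝ) = ∏ p ∈ S, (1 : ℝ) := by rw [prod_const_one]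
      _ ≤ _ := prod_le_prod (fun _ _ => zero_le_one) (fun p hp => hfac1 p (hS p hp))
  have hDD : D' ≤ D := by
    rw [hD', hD]
    have h1 : (m * W).primeFactors.filter (fun p => p ∈ PS z y) =
        m.primeFactors.filter (fun p => p ∈ PS z y) ∪
        (W.primeFactors.filter (fun p => p ∈ PS z y) \ m.primeFactors) := by
      ext p
      rw [Nat.primeFactors_mul hm0 hW0]
      simp only [mem_filter, mem_union, mem_sdiff]
      tauto
    rw [h1, prod_union]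
    · apply mul_le_mul_of_nonneg_left
      · apply Finset.prod_le_prod_of_subset_of_one_le
        · intro p hp
          rw [mem_sdiff, mem_filter] at hp
          exact mem_filter.2 ⟨hp.1.1, (mem_PS.1 hp.1.2).1.1⟩
        · intro p hp
          have h2 := hfac1 p (mem_PS.1 (mem_filter.1 (mem_sdiff.1 hp).1).2).1.1
          linarith
        · intro p hp _
          exact hfac1 p (mem_filter.1 hp).2
      · have := hP1 (m.primeFactors.filter (fun p => p ∈ PS z y))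
          (fun p hp => (mem_PS.1 (mem_filter.1 hp).2).1.1)
        linarith
    · rw [disjoint_left]
      intro p hp hp'
      rw [mem_filter] at hp
      rw [mem_sdiff] at hp'
      exact hp'.2 hp.1
  have hDB : 1 ≤ D * B := hDB'.trans (mul_le_mul_of_nonneg_right hDD hBpos.le)
  have hD1 : 1 ≤ D := by
    rw [hD]
    have h1 := hP1 (m.primeFactors.filter (fun p => p ∈ PS z y))
          (fun p hp => (mem_PS.1 (mem_filter.1 hp).2).1.1)
    have h2 := hP1 (W.primeFactors.filter (fun p => z < p)) (fun p hp => (mem_filter.1 hp).2)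
    calc (1 : ℝ) = 1 * 1 := (one_mul 1).symm
      _ ≤ _ := mul_le_mul h1 h2 zero_le_one (by linarith)
  have hDpos : 0 < D := by linarith
  have hAle : A ≤ (C1 / (Real.log y) ^ κ) * D := by
    have h1 : A ≤ (A * B) * D := by
      calc A = A * 1 := (mul_one A).symm
        _ ≤ A * (D * B) := mul_le_mul_of_nonneg_left hDB hApos.le
        _ = _ := by ring
    refine h1.trans ?_
    rw [hAB, hγ]
    exact mul_le_mul_of_nonneg_right (hP y hy3 hzy) hDpos.le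
  have hyr : (3 : ℝ) ≤ y := by exact_mod_cast hy3
  have hl1 : 1 < Real.log y := by
    rw [Real.lt_log_iff_exp_lt (by linarith)]
    have := Real.exp_one_lt_d9
    linarith
  have hly : Real.log y ≤ y := by
    have := Real.log_le_sub_one_of_pos (by linarith : (0 : ℝ) < y)
    linarith
  have hLpos : 0 < (Real.log y) ^ κ := by positivity
  have hmX : m * y ^ (K' + κ) ≤ X := by
    have h1 : (m * y ^ (K' + κ)) ^ 4 ≤ X ^ 4 := by
      calc (m * y ^ (K' + κ)) ^ 4 = m ^ 4 * (y ^ (K' + κ)) ^ 4 := by rw [mul_pow]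
        _ ≤ m ^ 4 * (y ^ (K' + κ)) ^ 6 := by
          apply Nat.mul_le_mul_left
          exact Nat.pow_le_pow_right (pow_pos (by omega) _) (by norm_num)
        _ = m ^ 4 * (y ^ (2 * (K' + κ))) ^ 3 := by ring
        _ ≤ X * X ^ 3 := Nat.mul_le_mul hmX4 (Nat.pow_le_pow_left hyX 3)
        _ = X ^ 4 := by ring
    exact (Nat.pow_le_pow_iff_left (by norm_num)).1 h1
  have hmr : (0 : ℝ) < m := by exact_mod_cast hmpos
  have hcnt : (((Icc 1 X).filter (fun t : ℕ => t ≡ r [MOD m] ∧ ∀ p ∈ PS z y, ¬ p ∣ m * W →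
      ∀ j, ¬ (p : ℤ) ∣ (g j).eval (t : ℤ))).card : ℝ) ≤
      2 * (((X / m + 1 : ℕ) : ℝ) * A) + √((y ^ K' : ℕ) : ℝ) := by
    have h1 : (((Icc 1 X).filter (fun t : ℕ => t ≡ r [MOD m] ∧ ∀ p ∈ PS z y, ¬ p ∣ m * W →
        ∀ j, ¬ (p : ℤ) ∣ (g j).eval (t : ℤ))).card : ℝ) ≤
      (((Icc 1 (X / m + 1)).filter
        (fun n : ℕ => ∀ p ∈ Pool.Agent.H373R2.T7.pz y,
          ¬ QW g z y ((r % m : ℕ) : ℤ) m W p n)).card : ℝ) := by
      exact_mod_cast hr
    have h2 := (abs_le.1 hfund).2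
    rw [one_mul, ← hA] at h2
    linarith
  have hX' : ((X / m + 1 : ℕ) : ℝ) ≤ 2 * (X / m) := by
    have hmX' : m ≤ X := by
      refine le_trans ?_ hmX
      exact Nat.le_mul_of_pos_right _ (pow_pos (by omega) _)
    have h1 : (X / m + 1) * m ≤ 2 * X := by
      have := Nat.div_mul_le_self X m
      rw [add_mul, one_mul]
      omega
    have h2 : ((X / m + 1 : ℕ) : ℝ) * m ≤ 2 * X := by exact_mod_cast h1
    rw [← mul_div_assoc, le_div_iff₀ hmr]
    exact h2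
  have hsq : √((y ^ K' : ℕ) : ℝ) ≤ (X / m) * D / (Real.log y) ^ κ := by
    have h1 : (1 : ℝ) ≤ ((y ^ K' : ℕ) : ℝ) := by
      exact_mod_cast Nat.one_le_iff_ne_zero.2 (pow_ne_zero _ (by omega))
    have h2 : √((y ^ K' : ℕ) : ℝ) ≤ ((y ^ K' : ℕ) : ℝ) := by
      rw [Real.sqrt_le_left (by linarith)]
      nlinarith
    refine h2.trans ?_
    rw [le_div_iff₀ hLpos]
    have h3 : (Real.log y) ^ κ ≤ (y : ℝ) ^ κ := pow_le_pow_left₀ (by linarith) hly _
    have h4 : (m : ℝ) * (y : ℝ) ^ (K' + κ) ≤ X := by exact_mod_cast hmX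
    have h5 : (y : ℝ) ^ (K' + κ) ≤ X / m := by
      rw [le_div_iff₀ hmr, mul_comm]
      exact h4
    push_cast
    calc (y : ℝ) ^ K' * (Real.log y) ^ κ ≤ (y : ℝ) ^ K' * (y : ℝ) ^ κ :=
          mul_le_mul_of_nonneg_left h3 (by positivity)
      _ = (y : ℝ) ^ (K' + κ) := by rw [pow_add]
      _ ≤ X / m := h5
      _ = (X / m) * 1 := (mul_one _).symm
      _ ≤ (X / m) * D := mul_le_mul_of_nonneg_left hD1 (by positivity)
  have hmain : 2 * (((X / m + 1 : ℕ) : ℝ) * A) ≤ 4 * C1 * (X / m) * D / (Real.log y) ^ κ := by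
    calc 2 * (((X / m + 1 : ℕ) : ℝ) * A) ≤
        2 * ((2 * (X / m)) * ((C1 / (Real.log y) ^ κ) * D)) := by gcongr
      _ = _ := by ring
  rw [← hD]
  calc (((Icc 1 X).filter (fun t : ℕ => t ≡ r [MOD m] ∧ ∀ p ∈ PS z y, ¬ p ∣ m * W →
      ∀ j, ¬ (p : ℤ) ∣ (g j).eval (t : ℤ))).card : ℝ)
      ≤ 2 * (((X / m + 1 : ℕ) : ℝ) * A) + √((y ^ K' : ℕ) : ℝ) := hcnt
    _ ≤ 4 * C1 * (X / m) * D / (Real.log y) ^ κ + (X / m) * D / (Real.log y) ^ κ :=
        add_le_add hmain hsq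
    _ = (4 * C1 + 1) * (X / m) * D / (Real.log y) ^ κ := by ring

end Pool.Agent.L7h80.RP
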