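import Mathlib
import Pool.Agent.L7h80.RP.PsvW
import Pool.Agent.L7h89.RP.StCnt
import Pool.Agent.L7h19.RP.Stm4
import Pool.Agent.L7h19.RH.Avhr

/-!
# Project RP (helper19, MP_157626_nt), stage 2: `StCnt2`

The number of coprime pairs `(u, w)` in a residue class with given small prime factors and given signs
of the values of irreducible binary forms. For each `w` the argument is the one of
`Pool.Agent.L7h89.RP.StCnt` with the polynomial `(f j).scaleRoots w`, uniformly in `w`.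
-/

set_option autoImplicit false

namespace Pool.Agent.L7h80.RP

open Finset Polynomial Pool.Agent.W262.RK Pool.Agent.W307.RT Pool.Agent.L7h19.RP
open Pool.Agent.L7h89.RP (vl dvd_S1 dvd_S2 lift_unique exists_j3 j3 Phi WH card_WH Ix Psi
  Psi_congr card_Psi gr_eq ru_eq eval_congr card_roots' affine_card)
open Pool.Agent.H474R2.PG (rho)
open Pool.Agent.W372.RK2 (mem_Tup' sq_pow_dvd card_W mj prod_gw)

variable {J : Type} [Fintype J] [DecidableEq J]

set_option linter.unusedSectionVars false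

/-- the conditions on the sieved tuple `f` (compared with the fixed tuple `f₀`) at the primes `> z`
that do not divide `W` -/
structure BW (f₀ f : J → ℤ[X]) (W c z : ℕ) : Prop where
  le_z : 2 * c + 2 ≤ z
  pos : 1 ≤ W
  rho_eq : ∀ p : ℕ, p.Prime → z < p → ¬ p ∣ W → ∀ j, rho (f j) p = rho (f₀ j) p
  simple : ∀ p : ℕ, p.Prime → z < p → ¬ p ∣ W → ∀ j (t : ℤ), (p : ℤ) ∣ (f j).eval t →
    ¬ (p : ℤ) ∣ (derivative (f j)).eval t
  cop : ∀ p : ℕ, p.Prime → z < p → ¬ p ∣ W → ∀ j l, j ≠ l → ∀ t : ℤ, (p : ℤ) ∣ (f j).eval t →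
    ¬ (p : ℤ) ∣ (f l).eval t

/-- the primes of the twist classes at which `f_j(t) / p` is not a square -/
noncomputable def negW (T : J → Fin 4) (f : J → ℤ[X]) (t : ℤ) (s : J → ℕ) : Finset ℕ := by
  classical
  exact (P3 T s).filter (fun p => ∃ j, T j = 3 ∧ p ∣ s j ∧
    jacobiSym ((f j).eval t / p) p = -1)

lemma uniq {f₀ f : J → ℤ[X]} {W c z : ℕ} (hB : BW f₀ f W c z) {t : ℤ} {p : ℕ} (hp : p.Prime)
    (hz : z < p) (hW : ¬ p ∣ W) {j l : J} (hj : (p : ℤ) ∣ vl f t j) (hl : (p : ℤ) ∣ vl f t l) :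
    j = l := by
  by_contra hne
  exact hB.cop p hp hz hW j l hne t hj hl

/-- the facts about the counted `t` -/
structure Good (f : J → ℤ[X]) (W z y : ℕ) (s v u : J → ℕ) (t : ℤ) : Prop where
  hs : S1 z y (vl f t) = s
  hv : S2 z y (vl f t) = v
  hu : ∀ j, (u j : ℤ) ∣ vl f t j
  hw : ∀ p : ℕ, p.Prime → z < p → ∀ j, (p : ℤ) ∣ vl f t j → ¬ p ∣ W

variable {f₀ f : J → ℤ[X]} {W c z y Y : ℕ} {s v u : J → ℕ} {t : ℤ} {T : J → Fin 4}

lemma Good.fs (g : Good f W z y s v u t) {p : ℕ} (hp : p.Prime) {j : J} (h : p ∣ s j) :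
    p ∈ PS z y ∧ (p : ℤ) ∣ vl f t j ∧ ¬ (p : ℤ) ^ 2 ∣ vl f t j := by
  rw [← g.hs] at h
  exact (dvd_S1 hp).1 h

lemma Good.fv (g : Good f W z y s v u t) {p : ℕ} (hp : p.Prime) {j : J} (h : p ∣ v j) :
    p ∈ PS z y ∧ (p : ℤ) ^ 2 ∣ vl f t j := by
  rw [← g.hv] at h
  exact (dvd_S2 hp).1 h

lemma Good.fu (g : Good f W z y s v u t) (hu : u ∈ Tup J y Y) {p : ℕ} (hp : p.Prime) {j : J}
    (h : p ∣ u j) : y < p ∧ (p : ℤ) ∣ vl f t j :=
  ⟨(dv_prime ((mem_Tup'.1 hu).1 j) hp h).1, (Int.natCast_dvd_natCast.2 h).trans (g.hu j)⟩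

lemma Good.fmj (g : Good f W z y s v u t) (hu : u ∈ Tup J y Y) (hzy : z < y) {p : ℕ}
    (hp : p.Prime) {j : J} (h : p ∣ mj T s v u j) : z < p ∧ (p : ℤ) ∣ vl f t j := by
  unfold mj at h
  have hs : p ∣ s j → z < p ∧ (p : ℤ) ∣ vl f t j := fun h' =>
    ⟨(mem_PS.1 (g.fs hp h').1).1.1, (g.fs hp h').2.1⟩
  rcases hp.dvd_mul.1 h with h | h
  · rcases hp.dvd_mul.1 h with h | h
    · rcases hp.dvd_mul.1 h with h | h
      · exact hs h
      · split_ifs at h
        · exact hs h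
        · exact absurd (Nat.dvd_one.1 h) hp.one_lt.ne'
    · have h' := g.fv hp (hp.dvd_of_dvd_pow h)
      exact ⟨(mem_PS.1 h'.1).1.1, (dvd_pow_self (p : ℤ) two_ne_zero).trans h'.2⟩
  · have h' := g.fu hu hp h
    exact ⟨hzy.trans h'.1, h'.2⟩

/-- two counted `t` with the same residues are congruent -/
lemma congr_of (hB : BW f₀ f W c z) (hzy : z < y) (hs : s ∈ Tup J z y) (hv : v ∈ Tup J z y)
    (hu : u ∈ Tup J y Y) {t t' : ℤ} (g : Good f W z y s v u t) (g' : Good f W z y s v u t')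
    (h1 : ((∏ j, s j : ℕ) : ℤ) ∣ t' - t)
    (h3 : ∀ j, T j = 3 → ∀ p : ℕ, p.Prime → p ∣ s j →
      (p : ℤ) ^ 2 ∣ vl f t' j - vl f t j)
    (h2 : ∀ j, ∀ p : ℕ, p.Prime → p ∣ v j * u j → (p : ℤ) ∣ t' - t) :
    ((∏ j, mj T s v u j : ℕ) : ℤ) ∣ t' - t := by
  have hs' := (mem_Tup'.1 hs).1
  have hv' := (mem_Tup'.1 hv).1
  have hu' := (mem_Tup'.1 hu).1
  rw [Nat.cast_prod]
  apply Finset.prod_dvd_of_coprime
  · intro j _ l _ hjl
    rw [Function.onFun, Nat.isCoprime_iff_coprime]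
    apply Nat.coprime_of_dvd
    intro p hp hpj hpl
    have h1 := g.fmj hu hzy hp hpj
    have h2 := g.fmj hu hzy hp hpl
    exact hjl (uniq hB hp h1.1 (g.hw p hp h1.1 _ h1.2) h1.2 h2.2)
  intro j _
  have hsj : ((s j : ℕ) : ℤ) ∣ t' - t :=
    (Int.natCast_dvd_natCast.2 (dvd_prod_of_mem s (mem_univ j))).trans h1
  have h5 : ((s j * (if T j = 3 then s j else 1) : ℕ) : ℤ) ∣ t' - t := by
    split_ifs with hc
    · have h := sq_pow_dvd (dv_squarefree (hs' j)) 2 (t' - t)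
        (fun p hp hpd => by
          have g1 := g.fs hp hpd
          exact lift_unique (f j) hp (hB.simple p hp (mem_PS.1 g1.1).1.1
            (g.hw p hp (mem_PS.1 g1.1).1.1 j g1.2.1) j t g1.2.1)
            ((Int.natCast_dvd_natCast.2 hpd).trans hsj) (h3 j hc p hp hpd))
      rw [sq] at h
      exact_mod_cast h
    · rw [mul_one]
      exact hsj
  have h6 : ((v j ^ 2 : ℕ) : ℤ) ∣ t' - t := by
    have h := sq_pow_dvd (dv_squarefree (hv' j)) 2 (t' - t)
      (fun p hp hpd => by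
        have g1 := g.fv hp hpd
        have g2 := g'.fv hp hpd
        exact lift_unique (f j) hp (hB.simple p hp (mem_PS.1 g1.1).1.1
          (g.hw p hp (mem_PS.1 g1.1).1.1 j ((dvd_pow_self (p : ℤ) two_ne_zero).trans g1.2)) j t
          ((dvd_pow_self (p : ℤ) two_ne_zero).trans g1.2))
          (h2 j p hp (hpd.mul_right _)) (dvd_sub g2.2 g1.2))
    exact_mod_cast h
  have h7 : ((u j : ℕ) : ℤ) ∣ t' - t := by
    have h := sq_pow_dvd (dv_squarefree (hu' j)) 1 (t' - t)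
      (fun p hp hpd => by
        rw [pow_one]
        exact h2 j p hp (hpd.mul_left _))
    rwa [pow_one] at h
  have hcop1 : IsCoprime ((s j * (if T j = 3 then s j else 1) : ℕ) : ℤ)
      ((v j ^ 2 : ℕ) : ℤ) := by
    rw [Nat.isCoprime_iff_coprime]
    apply Nat.coprime_of_dvd
    intro p hp hps hpv
    have hps' : p ∣ s j := by
      rcases hp.dvd_mul.1 hps with h | h
      · exact h
      · split_ifs at h
        · exact h
        · exact absurd (Nat.dvd_one.1 h) hp.one_lt.ne'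
    exact (g.fs hp hps').2.2 (g.fv hp (hp.dvd_of_dvd_pow hpv)).2
  have hcop2 : IsCoprime ((s j * (if T j = 3 then s j else 1) * v j ^ 2 : ℕ) : ℤ)
      ((u j : ℕ) : ℤ) := by
    rw [Nat.isCoprime_iff_coprime]
    apply Nat.coprime_of_dvd
    intro p hp hps hpu
    have h8 : y < p := (g.fu hu hp hpu).1
    have h9 : p ≤ y := by
      rcases hp.dvd_mul.1 hps with h | h
      · rcases hp.dvd_mul.1 h with h | h
        · exact (dv_prime (hs' j) hp h).2
        · split_ifs at h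
          · exact (dv_prime (hs' j) hp h).2
          · exact absurd (Nat.dvd_one.1 h) hp.one_lt.ne'
      · exact (dv_prime (hv' j) hp (hp.dvd_of_dvd_pow h)).2
    omega
  unfold mj
  rw [Nat.cast_mul]
  refine hcop2.mul_dvd ?_ h7
  rw [Nat.cast_mul]
  exact hcop1.mul_dvd h5 h6

/-- the product over the primes of the modulus -/
lemma prod_primes (hB : BW f₀ f W c z) (hs : s ∈ Tup J z y) (hv : v ∈ Tup J z y)
    (hu : u ∈ Tup J y Y) (g : Good f W z y s v u t) :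
    ∏ p ∈ (∏ j, mj T s v u j).primeFactors.filter (fun p => p ∈ PS z y),
      (p : ℝ) / ((p : ℝ) - c) =
    ∏ j, ((s j * gw 1 c (s j)) * (v j * gw 1 c (v j))) := by
  have hs' := (mem_Tup'.1 hs).1
  have hv' := (mem_Tup'.1 hv).1
  have key : ∀ j p, p ∈ (s j).primeFactors ∪ (v j).primeFactors →
      p.Prime ∧ z < p ∧ (p : ℤ) ∣ vl f t j := by
    intro j p hp
    rcases mem_union.1 hp with hp | hp
    · have h1 := Nat.prime_of_mem_primeFactors hp
      have h2 := g.fs h1 (Nat.dvd_of_mem_primeFactors hp)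
      exact ⟨h1, (mem_PS.1 h2.1).1.1, h2.2.1⟩
    · have h1 := Nat.prime_of_mem_primeFactors hp
      have h2 := g.fv h1 (Nat.dvd_of_mem_primeFactors hp)
      exact ⟨h1, (mem_PS.1 h2.1).1.1, (dvd_pow_self (p : ℤ) two_ne_zero).trans h2.2⟩
  rw [Pool.Agent.W372.RK2.mj_primes hs hv hu, prod_biUnion]
  · apply prod_congr rfl
    intro j _
    rw [prod_union, prod_gw (hs' j), prod_gw (hv' j)]
    rw [Finset.disjoint_left]
    intro p h1 h2
    have hp := Nat.prime_of_mem_primeFactors h1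
    exact (g.fs hp (Nat.dvd_of_mem_primeFactors h1)).2.2
      (g.fv hp (Nat.dvd_of_mem_primeFactors h2)).2
  · intro j _ l _ hjl
    rw [Function.onFun, Finset.disjoint_left]
    intro p h1 h2
    have h3 := key j p h1
    have h4 := key l p h2
    exact hjl (uniq hB h3.1 h3.2.1 (g.hw p h3.1 h3.2.1 _ h3.2.2) h3.2.2 h4.2.2)

lemma Phi_mem (hB : BW f₀ f W c z) (g : Good f W z y s v u t) {E : Finset ℕ}
    (hE : negW T f t s = E) :
    Phi f T s t ∈ Fintype.piFinset (fun p : P3 T s => WH E 1 p.1) := by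
  classical
  rw [Fintype.mem_piFinset]
  rintro ⟨p, hp3⟩
  have hp : p.Prime := Nat.prime_of_mem_primeFactors hp3
  obtain ⟨hc, hps⟩ : T (j3 T s ⟨p, hp3⟩) = 3 ∧ p ∣ s (j3 T s ⟨p, hp3⟩) :=
    (exists_j3 hp3).choose_spec
  unfold WH Phi
  simp only
  set j := j3 T s ⟨p, hp3⟩ with hj
  obtain ⟨hP, hd, hd2⟩ := g.fs hp hps
  have hpos : (0 : ℤ) < p := by exact_mod_cast hp.pos
  have hpW : ¬ p ∣ W := g.hw p hp (mem_PS.1 hP).1.1 j hd
  have h0 : 0 ≤ (vl f t j / (p : ℤ)) % (p : ℤ) := Int.emod_nonneg _ hpos.ne'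
  have hsym : jacobiSym (1 * ((vl f t j / (p : ℤ)) % (p : ℤ))) p =
      jacobiSym (vl f t j / (p : ℤ)) p := by
    rw [one_mul, jacobiSym.mod_left (vl f t j / (p : ℤ)), jacobiSym.mod_left, Int.emod_emod_of_dvd _ (dvd_refl _)]
  rw [mem_filter, mem_range]
  constructor
  · have h1 := Int.emod_lt_of_pos (vl f t j / (p : ℤ)) hpos
    omega
  · rw [Int.toNat_of_nonneg h0, hsym]
    split_ifs with hpE
    · rw [← hE] at hpE
      unfold negW at hpE
      rw [mem_filter] at hpE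
      obtain ⟨-, l, -, hpl, hl⟩ := hpE
      have hjl : j = l := uniq hB hp (mem_PS.1 hP).1.1 hpW hd (g.fs hp hpl).2.1
      rw [hjl]
      exact hl
    · have h1 : jacobiSym (vl f t j / (p : ℤ)) p ≠ -1 := by
        intro h'
        apply hpE
        rw [← hE]
        unfold negW
        exact mem_filter.2 ⟨hp3, j, hc, hps, h'⟩
      have h2 : jacobiSym (vl f t j / (p : ℤ)) p ≠ 0 := by
        have : NeZero p := ⟨hp.ne_zero⟩
        rw [Ne, jacobiSym.eq_zero_iff_not_coprime, not_not, Int.gcd_comm]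
        rw [Int.gcd_eq_natAbs, Int.natAbs_natCast]
        apply (hp.coprime_iff_not_dvd).2
        intro h'
        have h4 : (p : ℤ) ∣ (vl f t j / (p : ℤ)) := Int.natCast_dvd.2 h'
        apply hd2
        have h5 : vl f t j = p * (vl f t j / p) := (Int.mul_ediv_cancel' hd).symm
        rw [h5, sq]
        exact mul_dvd_mul_left _ h4
      rcases jacobiSym.trichotomy (vl f t j / (p : ℤ)) p with h' | h' | h'
      · exact absurd h' h2
      · exact h'
      · exact absurd h' h1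

lemma Phi_congr (hB : BW f₀ f W c z) (hs : s ∈ Tup J z y) {t t' : ℤ} (g : Good f W z y s v u t)
    (g' : Good f W z y s v u t') (hPhi : Phi f T s t' = Phi f T s t) (j : J)
    (hj : T j = 3) (p : ℕ) (hp : p.Prime) (hps : p ∣ s j) :
    (p : ℤ) ^ 2 ∣ vl f t' j - vl f t j := by
  have hs' := (mem_Tup'.1 hs).1
  have hp3 : p ∈ P3 T s := by
    unfold P3
    rw [Nat.mem_primeFactors]
    refine ⟨hp, hps.trans (dvd_prod_of_mem _ (mem_filter.2 ⟨mem_univ j, hj⟩)), ?_⟩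
    exact prod_ne_zero_iff.2 fun i _ => dv_ne_zero (hs' i)
  obtain ⟨hc, hps'⟩ : T (j3 T s ⟨p, hp3⟩) = 3 ∧ p ∣ s (j3 T s ⟨p, hp3⟩) :=
    (exists_j3 hp3).choose_spec
  have h1 := congrFun hPhi ⟨p, hp3⟩
  unfold Phi at h1
  simp only at h1
  have h2 : j3 T s ⟨p, hp3⟩ = j :=
    uniq hB hp (mem_PS.1 (g.fs hp hps).1).1.1
      (g.hw p hp (mem_PS.1 (g.fs hp hps).1).1.1 _ (g.fs hp hps).2.1)
      (g.fs hp hps').2.1 (g.fs hp hps).2.1
  rw [h2] at h1
  have hpos : (0 : ℤ) < p := by exact_mod_cast hp.pos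
  have h3 : (vl f t' j / (p : ℤ)) % (p : ℤ) = (vl f t j / (p : ℤ)) % (p : ℤ) := by
    have h4 := Int.emod_nonneg (vl f t j / (p : ℤ)) hpos.ne'
    have h5 := Int.emod_nonneg (vl f t' j / (p : ℤ)) hpos.ne'
    omega
  have h6 : (p : ℤ) ∣ vl f t' j / (p : ℤ) - vl f t j / (p : ℤ) :=
    Int.ModEq.dvd (Eq.symm h3)
  have h7 : vl f t j = p * (vl f t j / p) := (Int.mul_ediv_cancel' (g.fs hp hps).2.1).symm
  have h8 : vl f t' j = p * (vl f t' j / p) := (Int.mul_ediv_cancel' (g'.fs hp hps).2.1).symm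
  rw [h7, h8, ← mul_sub, sq]
  exact mul_dvd_mul_left _ h6

lemma card_Phi (hz : 2 ≤ z) (hs : s ∈ Tup J z y) (E : Finset ℕ) :
    ((Fintype.piFinset (fun p : P3 T s => WH E 1 p.1)).card : ℝ) ≤
      (1 / 2) ^ (P3 T s).card * ∏ j, ((if T j = 3 then s j else 1 : ℕ) : ℝ) := by
  have hs' := (mem_Tup'.1 hs).1
  rw [Fintype.card_piFinset, Nat.cast_prod]
  have h1 : ∀ p : P3 T s, (((WH E 1 p.1).card : ℕ) : ℝ) ≤ (1 / 2) * (p.1 : ℝ) := by
    rintro ⟨p, hp3⟩
    have hp := Nat.prime_of_mem_primeFactors hp3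
    obtain ⟨hc, hps⟩ : T (j3 T s ⟨p, hp3⟩) = 3 ∧ p ∣ s (j3 T s ⟨p, hp3⟩) :=
      (exists_j3 hp3).choose_spec
    have hzp := (dv_prime (hs' _) hp hps).1
    have h2 := card_WH hp (by omega) E (a := 1) (fun h => by
      have h3 := Int.le_of_dvd one_pos h
      have := hp.two_le
      omega)
    have h4 : (2 : ℝ) * ((WH E 1 p).card : ℝ) ≤ p := by exact_mod_cast h2
    simp only
    linarith
  refine (prod_le_prod (fun _ _ => Nat.cast_nonneg _) fun p _ => h1 p).trans ?_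
  rw [prod_mul_distrib, prod_const, card_univ, Fintype.card_coe]
  apply mul_le_mul_of_nonneg_left _ (by positivity)
  rw [prod_coe_sort (P3 T s) (fun p => (p : ℝ))]
  rw [← Nat.cast_prod, ← Nat.cast_prod, Nat.cast_le]
  rw [← prod_filter (fun j => T j = 3) s]
  unfold P3
  apply Nat.le_of_dvd
  · exact prod_pos fun i _ => dv_pos (hs' i)
  · exact Nat.prod_primeFactors_dvd _

lemma Psi_mem (hv : v ∈ Tup J z y) (hu : u ∈ Tup J y Y) {t : ℕ} (g : Good f W z y s v u (t : ℤ)) :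
    Psi v u t ∈ Fintype.piFinset (fun i : Ix v u => Pool.Agent.L7h89.RP.roots (f i.1.1) i.1.2) := by
  rw [Fintype.mem_piFinset]
  rintro ⟨⟨j, p⟩, hi⟩
  unfold Ix at hi
  rw [mem_sigma] at hi
  have hp := Nat.prime_of_mem_primeFactors hi.2
  have hd := Nat.dvd_of_mem_primeFactors hi.2
  unfold Psi Pool.Agent.L7h89.RP.roots
  simp only
  rw [mem_filter, mem_range]
  refine ⟨Nat.mod_lt _ hp.pos, ?_⟩
  have h1 : (p : ℤ) ∣ (f j).eval (t : ℤ) := by
    rcases hp.dvd_mul.1 hd with h | h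
    · exact (dvd_pow_self (p : ℤ) two_ne_zero).trans (g.fv hp h).2
    · exact (g.fu hu hp h).2
  refine (eval_congr (f j) ?_).2 h1
  push_cast
  have h2 : (p : ℤ) ∣ (t : ℤ) - (t : ℤ) % (p : ℤ) := Int.dvd_self_sub_emod
  have h3 := (dvd_neg.2 h2)
  rwa [neg_sub] at h3

set_option maxHeartbeats 1000000 in
/-- the count for one polynomial in each class, uniformly in the tuple -/
theorem stCntW (f₀ : J → ℤ[X]) (T : J → Fin 4) (c z : ℕ) (hirr : ∀ j, Irreducible (f₀ j))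
    (hpos : ∀ j, 0 < (f₀ j).natDegree) (hle : 2 * c + 2 ≤ z)
    (hrho : ∀ p : ℕ, p.Prime → z < p → ∑ j, rho (f₀ j) p ≤ c) :
    ∃ (C : ℝ) (K y0 : ℕ), 0 ≤ C ∧ 1 ≤ K ∧ ∀ (f : J → ℤ[X]) (W : ℕ), BW f₀ f W c z →
    ∀ X y Y : ℕ, y0 ≤ y → z < y → y ^ K ≤ X →
    ∀ s ∈ Tup J z y, ∀ v ∈ Tup J z y, ∀ u ∈ Tup J y Y, (∏ j, s j * v j * u j) ^ 8 ≤ X →
    ∀ (r : ℤ) (E S : Finset ℕ), S ⊆ Icc 1 X →
    (∀ t ∈ S, Good f W z y s v u (t : ℤ) ∧ negW T f t s = E ∧
      ((∏ j, s j : ℕ) : ℤ) ∣ (t : ℤ) - r) →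
    (S.card : ℝ) ≤
      C * X * (1 / 2) ^ (P3 T s).card * (∏ j, gw 1 c (s j)) *
        (∏ j, gr (f₀ j) c (v j) / v j) * (∏ j, ru (f₀ j) (u j)) *
        (∏ p ∈ W.primeFactors.filter (fun p => z < p), (p : ℝ) / ((p : ℝ) - c)) /
        (Real.log y) ^ (Fintype.card J) := by
  classical
  obtain ⟨C, K, y0, hC, hK, hSV⟩ := psvW f₀ c z hirr hpos hle hrho
  refine ⟨C, K, y0, hC, hK, ?_⟩
  intro f W hB X y Y hy0 hzy hX s hs v hv u hu hsvu r E S hSX hgood
  have hSV := hSV f W hB.pos hB.rho_eq hB.cop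
  have hs' := (mem_Tup'.1 hs).1
  have hv' := (mem_Tup'.1 hv).1
  have hu' := (mem_Tup'.1 hu).1
  have hz : 2 ≤ z := by omega
  have hc : c ≤ z := by omega
  have hlog : 0 ≤ (Real.log y) ^ (Fintype.card J) := pow_nonneg (Real.log_natCast_nonneg y) _
  have hgs : ∀ j, 0 ≤ gw 1 c (s j) := fun j => gw_nonneg zero_le_one hc (hs' j)
  have hgv : ∀ j, 0 ≤ gw 1 c (v j) := fun j => gw_nonneg zero_le_one hc (hv' j)
  obtain ⟨DW, hDW⟩ : ∃ DW : ℝ, DW = ∏ p ∈ W.primeFactors.filter (fun p => z < p),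
    (p : ℝ) / ((p : ℝ) - c) := ⟨_, rfl⟩
  have hDW0 : 0 ≤ DW := by
    rw [hDW]
    apply prod_nonneg
    intro p hp
    have h1 := (mem_filter.1 hp).2
    have h2 : (c : ℝ) ≤ p := by exact_mod_cast (by omega : c ≤ p)
    exact div_nonneg (Nat.cast_nonneg p) (by linarith)
  rw [← hDW] at hSV ⊢
  rcases S.eq_empty_or_nonempty with hTe | ⟨t0, ht0⟩
  · rw [hTe, card_empty, Nat.cast_zero]
    apply div_nonneg _ hlog
    have h1 : 0 ≤ ∏ j, gw 1 c (s j) := prod_nonneg fun j _ => hgs j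
    have h2 : 0 ≤ ∏ j, gr (f₀ j) c (v j) / v j := prod_nonneg fun j _ => by
      rw [gr_eq]
      have := hgv j
      positivity
    have h3 : 0 ≤ ∏ j, ru (f₀ j) (u j) := prod_nonneg fun j _ => by
      unfold ru
      positivity
    positivity
  set m := ∏ j, mj T s v u j with hm
  have hmj1 : ∀ j, 1 ≤ mj T s v u j := by
    intro j
    unfold mj
    have h1 := dv_pos (hs' j)
    have h2 := dv_pos (hv' j)
    have h3 := dv_pos (hu' j)
    have h4 : 0 < (if T j = 3 then s j else 1) := by split_ifs <;> omega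
    exact Nat.succ_le_of_lt (by positivity)
  have hm1 : 1 ≤ m := Nat.succ_le_of_lt (prod_pos fun j _ => hmj1 j)
  have hm4 : m ^ 4 ≤ X := by
    refine le_trans ?_ hsvu
    have h1 : m ≤ (∏ j, s j * v j * u j) ^ 2 := by
      rw [← prod_pow]
      apply prod_le_prod'
      intro j _
      unfold mj
      have h1 := dv_pos (hs' j)
      have h3 := dv_pos (hu' j)
      have h4 : (if T j = 3 then s j else 1) ≤ s j := by split_ifs <;> omega
      calc s j * (if T j = 3 then s j else 1) * v j ^ 2 * u j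
          ≤ s j * s j * v j ^ 2 * (u j * u j) := by
            apply Nat.mul_le_mul
            · exact Nat.mul_le_mul_right _ (Nat.mul_le_mul_left _ h4)
            · nlinarith
        _ = (s j * v j * u j) ^ 2 := by ring
    calc m ^ 4 ≤ ((∏ j, s j * v j * u j) ^ 2) ^ 4 := Nat.pow_le_pow_left h1 4
      _ = (∏ j, s j * v j * u j) ^ 8 := by rw [← pow_mul]
  have hsq := (hgood t0 ht0).1
  -- bound for a fibre
  set B : ℝ := C * (X / m) * ((∏ p ∈ m.primeFactors.filter (fun p => p ∈ PS z y),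
        (p : ℝ) / ((p : ℝ) - c)) * DW) / (Real.log y) ^ (Fintype.card J) with hBdef
  have hB0 : 0 ≤ B := le_trans (Nat.cast_nonneg _) (hSV X y hy0 hzy hX m 0 hm1 hm4)
  set K1 := Fintype.piFinset (fun p : P3 T s => WH E 1 p.1) with hK1
  set K2 := Fintype.piFinset (fun i : Ix v u => Pool.Agent.L7h89.RP.roots (f i.1.1) i.1.2) with hK2
  set key : ℕ → (P3 T s → ℕ) × (Ix v u → ℕ) :=
    fun t => (Phi f T s (t : ℤ), Psi v u t) with hkey
  have hfib : ∀ φ : (P3 T s → ℕ) × (Ix v u → ℕ),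
      ((S.filter (fun t : ℕ => key t = φ)).card : ℝ) ≤ B := by
    intro φ
    rcases (S.filter (fun t : ℕ => key t = φ)).eq_empty_or_nonempty with
      he | ⟨r0, hr0⟩
    · rw [he, card_empty, Nat.cast_zero]
      exact hB0
    · refine le_trans ?_ (hSV X y hy0 hzy hX m r0 hm1 hm4)
      rw [Nat.cast_le]
      apply card_le_card
      intro t ht
      rw [mem_filter] at ht hr0
      have g := (hgood t ht.1).1
      have g' := (hgood r0 hr0.1).1
      have htX : t ∈ Icc 1 X := hSX ht.1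
      have hk : key r0 = key t := hr0.2.trans ht.2.symm
      have hk1 : Phi f T s (r0 : ℤ) = Phi f T s (t : ℤ) := congrArg Prod.fst hk
      have hk2 : Psi v u r0 = Psi v u t := congrArg Prod.snd hk
      rw [mem_filter]
      refine ⟨htX, ?_, ?_⟩
      · have h0 : ((∏ j, s j : ℕ) : ℤ) ∣ (r0 : ℤ) - (t : ℤ) := by
          have h3 := dvd_sub (hgood r0 hr0.1).2.2 (hgood t ht.1).2.2
          rwa [sub_sub_sub_cancel_right] at h3
        have h1 := congr_of (T := T) hB hzy hs hv hu g g' h0 (fun j hj p hp hps =>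
          Phi_congr hB hs g g' hk1 j hj p hp hps) (fun j p hp hpd =>
          Psi_congr hv hu hk2 j p hp hpd)
        rw [← hm] at h1
        exact Nat.modEq_iff_dvd.2 h1
      · intro p hpP hpm j hpf
        have hp := (mem_PS.1 hpP).2
        apply hpm
        rw [hm]
        refine Dvd.dvd.mul_right ?_ W
        refine Dvd.dvd.trans ?_ (dvd_prod_of_mem _ (mem_univ j))
        unfold mj
        by_cases h2 : (p : ℤ) ^ 2 ∣ vl f t j
        · have h3 : p ∣ v j := by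
            rw [← g.hv]
            exact (dvd_S2 hp).2 ⟨hpP, h2⟩
          exact (((h3.pow two_ne_zero).mul_left _).mul_right _)
        · have h3 : p ∣ s j := by
            rw [← g.hs]
            exact (dvd_S1 hp).2 ⟨hpP, hpf, h2⟩
          exact (((h3.mul_right _).mul_right _).mul_right _)
  have hcard : (S.card : ℝ) ≤ ((K1.card : ℝ) * (K2.card : ℝ)) * B := by
    rw [card_eq_sum_card_fiberwise (f := key) (t := K1 ×ˢ K2)
      (fun t ht => mem_product.2 ⟨Phi_mem hB (hgood t ht).1 (hgood t ht).2.1,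
        Psi_mem hv hu (hgood t ht).1⟩)]
    rw [Nat.cast_sum]
    refine (sum_le_sum fun φ _ => hfib φ).trans ?_
    rw [sum_const, nsmul_eq_mul, card_product, Nat.cast_mul]
  have hK1c := card_Phi (T := T) hz hs E
  rw [← hK1] at hK1c
  have hK2c := card_Psi (f := f) hzy hv hu
  rw [← hK2] at hK2c
  have hK2c' : (K2.card : ℝ) = ∏ j, ((∏ p ∈ (v j).primeFactors, (rho (f₀ j) p : ℝ)) *
        ∏ p ∈ (u j).primeFactors, (rho (f₀ j) p : ℝ)) := by
    rw [hK2c]
    apply prod_congr rfl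
    intro j _
    congr 1
    · apply prod_congr rfl
      intro p hp
      have h1 := Nat.prime_of_mem_primeFactors hp
      have h2 := hsq.fv h1 (Nat.dvd_of_mem_primeFactors hp)
      have h3 := (mem_PS.1 h2.1).1.1
      rw [hB.rho_eq p h1 h3 (hsq.hw p h1 h3 j ((dvd_pow_self (p : ℤ) two_ne_zero).trans h2.2)) j]
    · apply prod_congr rfl
      intro p hp
      have h1 := Nat.prime_of_mem_primeFactors hp
      have h2 := hsq.fu hu h1 (Nat.dvd_of_mem_primeFactors hp)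
      have h3 : z < p := hzy.trans h2.1
      rw [hB.rho_eq p h1 h3 (hsq.hw p h1 h3 j h2.2) j]
  have hstep : ((K1.card : ℝ) * (K2.card : ℝ)) * B ≤
      ((1 / 2) ^ (P3 T s).card * (∏ j, ((if T j = 3 then s j else 1 : ℕ) : ℝ)) *
        (K2.card : ℝ)) * B := by
    apply mul_le_mul_of_nonneg_right _ hB0
    exact mul_le_mul_of_nonneg_right hK1c (Nat.cast_nonneg _)
  refine hcard.trans (hstep.trans ?_)
  rw [hK2c', hBdef, hm, prod_primes hB hs hv hu hsq, Nat.cast_prod]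
  have hterm : ∀ j, ((if T j = 3 then s j else 1 : ℕ) : ℝ) *
      ((∏ p ∈ (v j).primeFactors, (rho (f₀ j) p : ℝ)) *
        ∏ p ∈ (u j).primeFactors, (rho (f₀ j) p : ℝ)) * ((s j *
      gw 1 c (s j)) * (v j * gw 1 c (v j))) /
      ((mj T s v u j : ℕ) : ℝ) = gw 1 c (s j) *
      (gr (f₀ j) c (v j) / v j) * ru (f₀ j) (u j) := by
    intro j
    rw [gr_eq, ru_eq (f₀ j) (dv_squarefree (hu' j))]
    have h1 : (s j : ℝ) ≠ 0 := Nat.cast_ne_zero.2 (dv_ne_zero (hs' j))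
    have h2 : (v j : ℝ) ≠ 0 := Nat.cast_ne_zero.2 (dv_ne_zero (hv' j))
    have h3 : (u j : ℝ) ≠ 0 := Nat.cast_ne_zero.2 (dv_ne_zero (hu' j))
    have h4 : ((if T j = 3 then s j else 1 : ℕ) : ℝ) ≠ 0 := by
      split_ifs
      · exact h1
      · simp
    unfold mj
    rw [Nat.cast_mul, Nat.cast_mul, Nat.cast_mul, Nat.cast_pow]
    field_simp
  have hprod : (∏ j, ((if T j = 3 then s j else 1 : ℕ) : ℝ)) *
      (∏ j, ((∏ p ∈ (v j).primeFactors, (rho (f₀ j) p : ℝ)) *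
        ∏ p ∈ (u j).primeFactors, (rho (f₀ j) p : ℝ))) *
      (∏ j, ((s j * gw 1 c (s j)) * (v j * gw 1 c (v j)))) /
      (∏ j, ((mj T s v u j : ℕ) : ℝ)) = (∏ j, gw 1 c (s j)) *
        (∏ j, gr (f₀ j) c (v j) / v j) * (∏ j, ru (f₀ j) (u j)) := by
    rw [← prod_mul_distrib, ← prod_mul_distrib, ← prod_div_distrib, ← prod_mul_distrib,
      ← prod_mul_distrib]
    exact prod_congr rfl fun j _ => hterm j
  apply le_of_eq
  rw [show C * X * (1 / 2) ^ (P3 T s).card * (∏ j, gw 1 c (s j)) *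
        (∏ j, gr (f₀ j) c (v j) / v j) * (∏ j, ru (f₀ j) (u j)) * DW =
      C * X * (1 / 2) ^ (P3 T s).card * ((∏ j, gw 1 c (s j)) *
        (∏ j, gr (f₀ j) c (v j) / v j) * (∏ j, ru (f₀ j) (u j))) * DW by ring, ← hprod]
  ring

/-! ### The binary forms -/

lemma scale_eval (f : ℤ[X]) (w t : ℤ) :
    (f.scaleRoots w).eval (w * t) = w ^ f.natDegree * f.eval t := scaleRoots_eval_mul f t w

lemma scale_der (f : ℤ[X]) (w t : ℤ) :
    w * (derivative (f.scaleRoots w)).eval (w * t) = w ^ f.natDegree * (derivative f).eval t := by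
  have h : (f.scaleRoots w).comp (C w * X) = C (w ^ f.natDegree) * f := by
    have h1 := scaleRoots_eval₂_mul (p := f) (C : ℤ →+* ℤ[X]) X w
    rw [eval₂_C_X] at h1
    rw [comp, h1, C_pow]
  have h2 := congrArg (fun q : ℤ[X] => (derivative q).eval t) h
  simp only [derivative_comp, derivative_mul, derivative_C, derivative_X, zero_mul, zero_add,
    mul_one, eval_mul, eval_C, eval_comp, eval_X] at h2
  exact h2

lemma exists_div {p : ℕ} (hp : p.Prime) {w : ℤ} (hw : ¬ (p : ℤ) ∣ w) (u : ℤ) :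
    ∃ t : ℤ, (p : ℤ) ∣ u - w * t := by
  have h1 : IsCoprime (p : ℤ) w := by
    rw [Int.isCoprime_iff_gcd_eq_one, Int.gcd_eq_natAbs, Int.natAbs_natCast]
    exact (hp.coprime_iff_not_dvd).2 fun h => hw (Int.natCast_dvd.2 h)
  obtain ⟨a, b, hab⟩ := h1
  refine ⟨b * u, a * u, ?_⟩
  linear_combination (-u) * hab

lemma dvd_scale {p : ℕ} (hp : p.Prime) {w : ℤ} (hw : ¬ (p : ℤ) ∣ w) (f : ℤ[X]) {u t : ℤ}
    (h : (p : ℤ) ∣ u - w * t) : (p : ℤ) ∣ (f.scaleRoots w).eval u ↔ (p : ℤ) ∣ f.eval t := by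
  rw [eval_congr (f.scaleRoots w) h, scale_eval]
  have hp' := Nat.prime_iff_prime_int.1 hp
  constructor
  · intro h1
    exact (hp'.dvd_mul.1 h1).resolve_left fun h2 => hw (hp'.dvd_of_dvd_pow h2)
  · intro h1
    exact h1.mul_left _

lemma dvd_scale_der {p : ℕ} (hp : p.Prime) {w : ℤ} (hw : ¬ (p : ℤ) ∣ w) (f : ℤ[X]) {u t : ℤ}
    (h : (p : ℤ) ∣ u - w * t) (hd : (p : ℤ) ∣ (derivative (f.scaleRoots w)).eval u) :
    (p : ℤ) ∣ (derivative f).eval t := by
  rw [eval_congr (derivative (f.scaleRoots w)) h] at hd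
  have hp' := Nat.prime_iff_prime_int.1 hp
  have h1 := hd.mul_left w
  rw [scale_der] at h1
  exact (hp'.dvd_mul.1 h1).resolve_left fun h2 => hw (hp'.dvd_of_dvd_pow h2)

lemma rho_scale {p : ℕ} (hp : p.Prime) {w : ℤ} (hw : ¬ (p : ℤ) ∣ w) (f : ℤ[X]) :
    rho (f.scaleRoots w) p = rho f p := by
  unfold rho
  rw [← affine_card p hp (fun t : ℤ => (p : ℤ) ∣ (f.scaleRoots w).eval t) ?_ w w hw]
  · congr 1
    apply filter_congr
    intro n _
    apply dvd_scale hp hw f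
    rw [show w + w * ((n : ℤ) - 1) - w * (n : ℤ) = 0 by ring]
    exact dvd_zero _
  · intro a b hab
    exact eval_congr _ hab

/-- at the prime divisors of `w` the form has no small prime factor -/
lemma not_dvd_hv {p : ℕ} (hp : p.Prime) (f : ℤ[X]) {u w : ℤ} (hl : ¬ (p : ℤ) ∣ f.leadingCoeff)
    (hu : ¬ (p : ℤ) ∣ u) (hw : (p : ℤ) ∣ w) : ¬ (p : ℤ) ∣ (f.scaleRoots w).eval u := by
  intro h
  have hp' := Nat.prime_iff_prime_int.1 hp
  have e : (f.scaleRoots w).eval u = ∑ i ∈ range f.natDegree,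
      (f.coeff i * w ^ (f.natDegree - i)) * u ^ i + f.leadingCoeff * u ^ f.natDegree := by
    rw [eval_eq_sum_range, natDegree_scaleRoots, sum_range_succ, coeff_scaleRoots_natDegree]
    congr 1
    apply sum_congr rfl
    intro i _
    rw [coeff_scaleRoots]
  rw [e] at h
  have h1 : (p : ℤ) ∣ ∑ i ∈ range f.natDegree, (f.coeff i * w ^ (f.natDegree - i)) * u ^ i := by
    apply dvd_sum
    intro i hi
    have hi' := mem_range.1 hi
    exact ((dvd_pow hw (by omega)).mul_left _).mul_right _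
  have h2 := (dvd_add_right h1).1 h
  rcases hp'.dvd_mul.1 h2 with h3 | h3
  · exact hl h3
  · exact hu (hp'.dvd_of_dvd_pow h3)

lemma bw {f : J → ℤ[X]} {c z : ℕ} (hB : BgH f c z) {w : ℕ} (hw : 1 ≤ w) :
    BW f (fun j => (f j).scaleRoots w) w c z := by
  have hc : ∀ p : ℕ, ¬ p ∣ w → ¬ (p : ℤ) ∣ (w : ℤ) := fun p h h' =>
    h (Int.natCast_dvd_natCast.1 h')
  refine ⟨hB.le_z, hw, ?_, ?_, ?_⟩
  · intro p hp _ hpw j
    exact rho_scale hp (hc p hpw) (f j)
  · intro p hp hz hpw j u hu hd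
    obtain ⟨t, ht⟩ := exists_div hp (hc p hpw) u
    exact hB.simple p hp hz j t ((dvd_scale hp (hc p hpw) (f j) ht).1 hu)
      (dvd_scale_der hp (hc p hpw) (f j) ht hd)
  · intro p hp hz hpw j l hjl u hu hd
    obtain ⟨t, ht⟩ := exists_div hp (hc p hpw) u
    exact hB.cop p hp hz j l hjl t ((dvd_scale hp (hc p hpw) (f j) ht).1 hu)
      ((dvd_scale hp (hc p hpw) (f l) ht).1 hd)

set_option maxHeartbeats 1000000 in
theorem stCnt2 : StCnt2 := by
  classical
  intro J _ _ T f c z hB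
  obtain ⟨C, K, y0, hC, hK, hW⟩ := stCntW f T c z hB.irr hB.pos hB.le_z hB.rho_le
  obtain ⟨CA, hCA, hA⟩ := Pool.Agent.L7h19.RH.avhr c z hB.le_z
  refine ⟨C * CA, K, y0, by positivity, hK, ?_⟩
  intro X y Y hy0 hzy hX s hs v hv e he hsve r r' E hsr hr'
  have hs' := (mem_Tup'.1 hs).1
  have hv' := (mem_Tup'.1 hv).1
  have he' := (mem_Tup'.1 he).1
  have hc : c ≤ z := by have := hB.le_z; omega
  set Q := ∏ j, s j with hQ
  have hQ1 : 1 ≤ Q := Nat.succ_le_of_lt (prod_pos fun j _ => dv_pos (hs' j))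
  set R : ℕ := ((r' % (Q : ℤ)).toNat) with hR
  have hQ0 : (Q : ℤ) ≠ 0 := by exact_mod_cast (by omega : Q ≠ 0)
  have hRr : (R : ℤ) ≡ r' [ZMOD (Q : ℤ)] := by
    rw [hR, Int.toNat_of_nonneg (Int.emod_nonneg _ hQ0)]
    exact Int.mod_modEq _ _
  have hRQ : R.Coprime Q := by
    apply Nat.coprime_of_dvd
    intro p hp hpR hpQ
    apply hr' p hp hpQ
    have h1 : (p : ℤ) ∣ (R : ℤ) := Int.natCast_dvd_natCast.2 hpR
    have h2 : (p : ℤ) ∣ r' - (R : ℤ) := (Int.natCast_dvd_natCast.2 hpQ).trans hRr.dvd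
    have h3 := dvd_add h1 h2
    rwa [add_sub_cancel] at h3
  have hQX : Q ^ 2 ≤ X := by
    refine le_trans ?_ hsve
    have h1 : Q ≤ ∏ j, s j * v j * e j := by
      rw [hQ]
      apply prod_le_prod'
      intro j _
      have h2 := dv_pos (hv' j)
      have h3 := dv_pos (he' j)
      calc s j = s j * 1 * 1 := by ring
        _ ≤ s j * v j * e j := Nat.mul_le_mul (Nat.mul_le_mul_left _ h2) h3
    have h2 : 1 ≤ ∏ j, s j * v j * e j := hQ1.trans h1
    calc Q ^ 2 ≤ (∏ j, s j * v j * e j) ^ 2 := Nat.pow_le_pow_left h1 2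
      _ ≤ (∏ j, s j * v j * e j) ^ 8 := Nat.pow_le_pow_right h2 (by norm_num)
  set G : ℝ := C * X * (1 / 2) ^ (P3 T s).card * (∏ j, gw 1 c (s j)) *
        (∏ j, gr (f j) c (v j) / v j) * (∏ j, ru (f j) (e j)) with hG
  set L : ℝ := (Real.log y) ^ (Fintype.card J) with hL
  have hL0 : 0 ≤ L := pow_nonneg (Real.log_natCast_nonneg y) _
  have hgs : ∀ j, 0 ≤ gw 1 c (s j) := fun j => gw_nonneg zero_le_one hc (hs' j)
  have hgv : ∀ j, 0 ≤ gw 1 c (v j) := fun j => gw_nonneg zero_le_one hc (hv' j)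
  have hG0 : 0 ≤ G := by
    have h1 : 0 ≤ ∏ j, gw 1 c (s j) := prod_nonneg fun j _ => hgs j
    have h2 : 0 ≤ ∏ j, gr (f j) c (v j) / v j := prod_nonneg fun j _ => by
      rw [gr_eq]
      have := hgv j
      positivity
    have h3 : 0 ≤ ∏ j, ru (f j) (e j) := prod_nonneg fun j _ => by
      unfold ru
      positivity
    positivity
  set AA := ((Icc 1 X ×ˢ Icc 1 X).filter (fun q : ℕ × ℕ => q.1.Coprime q.2 ∧
      (q.1 : ℤ) ≡ r [ZMOD (Q : ℤ)] ∧ (q.2 : ℤ) ≡ r' [ZMOD (Q : ℤ)] ∧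
      S1 z y (fun j => Pool.Agent.L7h19.RP.hv (f j) q.1 q.2) = s ∧ S2 z y (fun j => Pool.Agent.L7h19.RP.hv (f j) q.1 q.2) = v ∧
      (∀ j, (e j : ℤ) ∣ Pool.Agent.L7h19.RP.hv (f j) q.1 q.2) ∧ negH T f q.1 q.2 s = E)) with hAA
  have hmaps : ∀ q ∈ AA, q.2 ∈ (Icc 1 X).filter (fun w => w ≡ R [MOD Q]) := by
    intro q hq
    rw [hAA, mem_filter, mem_product] at hq
    rw [mem_filter]
    refine ⟨hq.1.2, ?_⟩
    have h1 : (q.2 : ℤ) ≡ (R : ℤ) [ZMOD (Q : ℤ)] := hq.2.2.2.1.trans hRr.symm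
    exact (Int.natCast_modEq_iff).1 h1
  have hfib : ∀ w ∈ (Icc 1 X).filter (fun w => w ≡ R [MOD Q]),
      ((AA.filter (fun q => q.2 = w)).card : ℝ) ≤
      G * (∏ p ∈ w.primeFactors.filter (fun p => z < p), (p : ℝ) / ((p : ℝ) - c)) / L := by
    intro w hw
    rw [mem_filter, mem_Icc] at hw
    have h1 : (AA.filter (fun q => q.2 = w)).card =
        ((AA.filter (fun q => q.2 = w)).image Prod.fst).card := by
      rw [card_image_of_injOn]
      intro a ha b hb hab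
      have ha' := (mem_filter.1 (mem_coe.1 ha)).2
      have hb' := (mem_filter.1 (mem_coe.1 hb)).2
      exact Prod.ext hab (ha'.trans hb'.symm)
    rw [h1]
    apply hW (fun j => (f j).scaleRoots w) w (bw hB hw.1.1) X y Y hy0 hzy hX s hs v hv e he hsve r E
    · intro u hu
      obtain ⟨q, hq, rfl⟩ := mem_image.1 hu
      rw [mem_filter, hAA, mem_filter, mem_product] at hq
      exact hq.1.1.1
    · intro u hu
      obtain ⟨q, hq, rfl⟩ := mem_image.1 hu
      rw [mem_filter, hAA, mem_filter, mem_product] at hq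
      obtain ⟨⟨-, hcop, hmr, -, hS1, hS2, hee, hE⟩, hqw⟩ := hq
      rw [hqw] at hcop hS1 hS2 hee hE
      refine ⟨⟨hS1, hS2, hee, ?_⟩, hE, (Int.modEq_iff_dvd).1 hmr.symm⟩
      intro p hp hzp j hpj hpw
      apply not_dvd_hv hp (f j) (hB.lead p hp hzp j) ?_ (Int.natCast_dvd_natCast.2 hpw) hpj
      intro h2
      have h3 : p ∣ q.1 := Int.natCast_dvd_natCast.1 h2
      have h4 : p ∣ Nat.gcd q.1 w := Nat.dvd_gcd h3 hpw
      rw [Nat.coprime_iff_gcd_eq_one.1 hcop] at h4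
      exact hp.one_lt.ne' (Nat.dvd_one.1 h4)
  have hcard : (AA.card : ℝ) ≤ ∑ w ∈ (Icc 1 X).filter (fun w => w ≡ R [MOD Q]),
      G * (∏ p ∈ w.primeFactors.filter (fun p => z < p), (p : ℝ) / ((p : ℝ) - c)) / L := by
    rw [card_eq_sum_card_fiberwise (f := Prod.snd) hmaps, Nat.cast_sum]
    exact sum_le_sum hfib
  refine hcard.trans ?_
  rw [← sum_div, ← mul_sum]
  apply div_le_div_of_nonneg_right _ hL0
  have h5 := hA X Q R hQ1 hRQ hQX
  have hQr : (0 : ℝ) < Q := by exact_mod_cast (by omega : 0 < Q)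
  have h6 : (X : ℝ) / Q ≤ X * ∏ j, ∏ p ∈ (s j).primeFactors, 1 / ((p : ℝ) - 1) := by
    rw [div_eq_mul_inv]
    apply mul_le_mul_of_nonneg_left _ (Nat.cast_nonneg X)
    rw [hQ, Nat.cast_prod, ← prod_inv_distrib]
    apply prod_le_prod
    · intro j _
      positivity
    · intro j _
      have h7 : (s j : ℝ) = ∏ p ∈ (s j).primeFactors, (p : ℝ) := by
        rw [← Nat.cast_prod, Nat.prod_primeFactors_of_squarefree (dv_squarefree (hs' j))]
      conv_lhs => rw [h7]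
      rw [← prod_inv_distrib]
      apply prod_le_prod
      · intro p _
        positivity
      · intro p hp
        have h8 : (2 : ℝ) ≤ p := by exact_mod_cast (Nat.prime_of_mem_primeFactors hp).two_le
        rw [inv_eq_one_div]
        apply one_div_le_one_div_of_le <;> linarith
  calc G * ∑ w ∈ (Icc 1 X).filter (fun w => w ≡ R [MOD Q]),
        ∏ p ∈ w.primeFactors.filter (fun p => z < p), (p : ℝ) / ((p : ℝ) - c)
      ≤ G * (CA * (X / Q)) := mul_le_mul_of_nonneg_left h5 hG0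
    _ ≤ G * (CA * (X * ∏ j, ∏ p ∈ (s j).primeFactors, 1 / ((p : ℝ) - 1))) := by
        apply mul_le_mul_of_nonneg_left _ hG0
        exact mul_le_mul_of_nonneg_left h6 hCA
    _ = C * CA * X ^ 2 * (1 / 2) ^ (P3 T s).card *
        (∏ j, (gw 1 c (s j) * ∏ p ∈ (s j).primeFactors, 1 / ((p : ℝ) - 1))) *
        (∏ j, gr (f j) c (v j) / v j) * (∏ j, ru (f j) (e j)) := by
        rw [hG, prod_mul_distrib]
        ring

end Pool.Agent.L7h80.RP
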