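import Mathlib
import Pool.Agent.L7h80.RP.StCnt2
import Pool.Agent.L7h80.RP.Avhr3
import Pool.Agent.L7h19.RP.Stm5

/-!
# Project RP (helper19, MP_157626_nt), stage 3: `StCnt3`

The count of `StCnt2` in short boxes `(U0, U0 + X] × (W0, W0 + X]`: the shift of the first variable is a
shift of the polynomials, the shift of the second one is in `avhr3`.
-/

set_option autoImplicit false

namespace Pool.Agent.L7h80.RP

open Finset Polynomial Pool.Agent.W262.RK Pool.Agent.W307.RT Pool.Agent.L7h19.RP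
open Pool.Agent.L7h89.RP (vl gr_eq eval_congr affine_card)
open Pool.Agent.H474R2.PG (rho)


variable {J : Type} [Fintype J] [DecidableEq J]

set_option linter.unusedSectionVars false

lemma eval_shift (g : ℤ[X]) (U t : ℤ) : (g.comp (C U + X)).eval t = g.eval (U + t) := by
  simp

lemma der_shift (g : ℤ[X]) (U t : ℤ) :
    (derivative (g.comp (C U + X))).eval t = (derivative g).eval (U + t) := by
  simp [derivative_comp]

lemma rho_shift {p : ℕ} (hp : p.Prime) (U : ℤ) (g : ℤ[X]) :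
    rho (g.comp (C U + X)) p = rho g p := by
  unfold rho
  rw [← affine_card p hp (fun t : ℤ => (p : ℤ) ∣ g.eval t) ?_ (U + 1) 1 ?_]
  · congr 1
    apply filter_congr
    intro n _
    rw [eval_shift, show U + 1 + 1 * ((n : ℤ) - 1) = U + n by ring]
  · intro a b hab
    exact eval_congr _ hab
  · intro h
    have h1 := Int.le_of_dvd one_pos h
    have := hp.two_le
    omega

/-- a shift of the variable -/
lemma bw_shift {f₀ g : J → ℤ[X]} {W c z : ℕ} (h : BW f₀ g W c z) (U : ℤ) :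
    BW f₀ (fun j => (g j).comp (C U + X)) W c z := by
  refine ⟨h.le_z, h.pos, ?_, ?_, ?_⟩
  · intro p hp hz hpw j
    rw [rho_shift hp]
    exact h.rho_eq p hp hz hpw j
  · intro p hp hz hpw j t ht
    rw [eval_shift] at ht
    rw [der_shift]
    exact h.simple p hp hz hpw j _ ht
  · intro p hp hz hpw j l hjl t ht
    rw [eval_shift] at ht ⊢
    exact h.cop p hp hz hpw j l hjl _ ht

set_option maxHeartbeats 1000000 in
theorem stCnt3 : StCnt3 := by
  classical
  intro J _ _ T f c z μ hB hμ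
  obtain ⟨C, K, y0, hC, hK, hW⟩ := stCntW f T c z hB.irr hB.pos hB.le_z hB.rho_le
  obtain ⟨CA, hCA, hA⟩ := avhr3 c z μ hB.le_z hμ
  refine ⟨C * CA, K, y0, by positivity, hK, ?_⟩
  intro X y Y U0 W0 hy0 hzy hX _ hW0 s hs v hv e he hsve r r' E hsr hr'
  have hs' := (Pool.Agent.W372.RK2.mem_Tup'.1 hs).1
  have hv' := (Pool.Agent.W372.RK2.mem_Tup'.1 hv).1
  have he' := (Pool.Agent.W372.RK2.mem_Tup'.1 he).1
  have hc : c ≤ z := by have := hB.le_z; omega
  set Q := ∏ j, s j with hQ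
  have hQ1 : 1 ≤ Q := Nat.succ_le_of_lt (prod_pos fun j _ => dv_pos (hs' j))
  set R : ℕ := ((r' % (Q : ℤ)).toNat) with hR
  have hQ0 : (Q : ℤ) ≠ 0 := by exact_mod_cast (by omega : Q ≠ 0)
  have hRr : (R : ℤ) ≡ r' [ZMOD (Q : ℤ)] := by
    rw [hR, Int.toNat_of_nonneg (Int.emod_nonneg _ hQ0)]
    exact Int.mod_modEq _ _
  have hRQ : R.Coprime Q := by
    apply Nat.coprime_of_dvd
    intro p hp hpR hpQ
    apply hr' p hp hpQ
    have h1 : (p : ℤ) ∣ (R : ℤ) := Int.natCast_dvd_natCast.2 hpR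
    have h2 : (p : ℤ) ∣ r' - (R : ℤ) := (Int.natCast_dvd_natCast.2 hpQ).trans hRr.dvd
    have h3 := dvd_add h1 h2
    rwa [add_sub_cancel] at h3
  have hQX : Q ^ 2 ≤ X := by
    refine le_trans ?_ hsve
    have h1 : Q ≤ ∏ j, s j * v j * e j := by
      rw [hQ]
      apply prod_le_prod'
      intro j _
      have h2 := dv_pos (hv' j)
      have h3 := dv_pos (he' j)
      calc s j = s j * 1 * 1 := by ring
        _ ≤ s j * v j * e j := Nat.mul_le_mul (Nat.mul_le_mul_left _ h2) h3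
    have h2 : 1 ≤ ∏ j, s j * v j * e j := hQ1.trans h1
    calc Q ^ 2 ≤ (∏ j, s j * v j * e j) ^ 2 := Nat.pow_le_pow_left h1 2
      _ ≤ (∏ j, s j * v j * e j) ^ 8 := Nat.pow_le_pow_right h2 (by norm_num)
  set G : ℝ := C * X * (1 / 2) ^ (P3 T s).card * (∏ j, gw 1 c (s j)) *
        (∏ j, gr (f j) c (v j) / v j) * (∏ j, ru (f j) (e j)) with hG
  set L : ℝ := (Real.log y) ^ (Fintype.card J) with hL
  have hL0 : 0 ≤ L := pow_nonneg (Real.log_natCast_nonneg y) _
  have hgs : ∀ j, 0 ≤ gw 1 c (s j) := fun j => gw_nonneg zero_le_one hc (hs' j)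
  have hgv : ∀ j, 0 ≤ gw 1 c (v j) := fun j => gw_nonneg zero_le_one hc (hv' j)
  have hG0 : 0 ≤ G := by
    have h1 : 0 ≤ ∏ j, gw 1 c (s j) := prod_nonneg fun j _ => hgs j
    have h2 : 0 ≤ ∏ j, gr (f j) c (v j) / v j := prod_nonneg fun j _ => by
      rw [gr_eq]
      have := hgv j
      positivity
    have h3 : 0 ≤ ∏ j, ru (f j) (e j) := prod_nonneg fun j _ => by
      unfold ru
      positivity
    positivity
  set AA := ((Icc 1 X ×ˢ Icc 1 X).filter (fun q : ℕ × ℕ =>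
      IsCoprime (U0 + (q.1 : ℤ)) ((W0 : ℤ) + (q.2 : ℤ)) ∧
      U0 + (q.1 : ℤ) ≡ r [ZMOD (Q : ℤ)] ∧ (W0 : ℤ) + (q.2 : ℤ) ≡ r' [ZMOD (Q : ℤ)] ∧
      S1 z y (fun j => Pool.Agent.L7h19.RP.hv (f j) (U0 + (q.1 : ℤ)) ((W0 : ℤ) + (q.2 : ℤ))) = s ∧
      S2 z y (fun j => Pool.Agent.L7h19.RP.hv (f j) (U0 + (q.1 : ℤ)) ((W0 : ℤ) + (q.2 : ℤ))) = v ∧
      (∀ j, (e j : ℤ) ∣
        Pool.Agent.L7h19.RP.hv (f j) (U0 + (q.1 : ℤ)) ((W0 : ℤ) + (q.2 : ℤ))) ∧
      negH T f (U0 + (q.1 : ℤ)) ((W0 : ℤ) + (q.2 : ℤ)) s = E)) with hAA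
  have hmaps : ∀ q ∈ AA, q.2 ∈ (Icc 1 X).filter (fun w => W0 + w ≡ R [MOD Q]) := by
    intro q hq
    rw [hAA, mem_filter, mem_product] at hq
    rw [mem_filter]
    refine ⟨hq.1.2, ?_⟩
    have h1 : (W0 : ℤ) + (q.2 : ℤ) ≡ (R : ℤ) [ZMOD (Q : ℤ)] := hq.2.2.2.1.trans hRr.symm
    exact (Int.natCast_modEq_iff).1 (by push_cast; exact h1)
  have hfib : ∀ w ∈ (Icc 1 X).filter (fun w => W0 + w ≡ R [MOD Q]),
      ((AA.filter (fun q => q.2 = w)).card : ℝ) ≤
      G * (∏ p ∈ (W0 + w).primeFactors.filter (fun p => z < p), (p : ℝ) / ((p : ℝ) - c)) / L := by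
    intro w hw
    rw [mem_filter, mem_Icc] at hw
    have h1 : (AA.filter (fun q => q.2 = w)).card =
        ((AA.filter (fun q => q.2 = w)).image Prod.fst).card := by
      rw [card_image_of_injOn]
      intro a ha b hb hab
      have ha' := (mem_filter.1 (mem_coe.1 ha)).2
      have hb' := (mem_filter.1 (mem_coe.1 hb)).2
      exact Prod.ext hab (ha'.trans hb'.symm)
    rw [h1]
    have hvl : ∀ (u : ℤ) (j : J), ((((f j).scaleRoots ((W0 + w : ℕ) : ℤ)).comp
        (Polynomial.C U0 + Polynomial.X)).eval u) =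
        Pool.Agent.L7h19.RP.hv (f j) (U0 + u) ((W0 : ℤ) + (w : ℤ)) := by
      intro u j
      rw [eval_shift]
      push_cast
      rfl
    apply hW (fun j => ((f j).scaleRoots ((W0 + w : ℕ) : ℤ)).comp
      (Polynomial.C U0 + Polynomial.X)) (W0 + w) (bw_shift (bw hB (by omega)) U0) X y Y hy0 hzy hX
      s hs v hv e he hsve (r - U0) E
    · intro u hu
      obtain ⟨q, hq, rfl⟩ := mem_image.1 hu
      rw [mem_filter, hAA, mem_filter, mem_product] at hq
      exact hq.1.1.1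
    · intro u hu
      obtain ⟨q, hq, rfl⟩ := mem_image.1 hu
      rw [mem_filter, hAA, mem_filter, mem_product] at hq
      obtain ⟨⟨-, hcop, hmr, -, hS1, hS2, hee, hE⟩, hqw⟩ := hq
      rw [hqw] at hcop hS1 hS2 hee hE
      have hvl' : vl (fun j => ((f j).scaleRoots ((W0 + w : ℕ) : ℤ)).comp
          (Polynomial.C U0 + Polynomial.X)) (q.1 : ℤ) =
          fun j => Pool.Agent.L7h19.RP.hv (f j) (U0 + (q.1 : ℤ)) ((W0 : ℤ) + (w : ℤ)) :=
        funext fun j => hvl q.1 j
      refine ⟨⟨?_, ?_, ?_, ?_⟩, ?_, ?_⟩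
      · rw [hvl']
        exact hS1
      · rw [hvl']
        exact hS2
      · rw [hvl']
        exact hee
      · intro p hp hzp j hpj hpw
        rw [hvl'] at hpj
        have hpw' : (p : ℤ) ∣ (W0 : ℤ) + (w : ℤ) := by
          have := Int.natCast_dvd_natCast.2 hpw
          push_cast at this
          exact this
        apply not_dvd_hv hp (f j) (hB.lead p hp hzp j) ?_ hpw' hpj
        intro h2
        have h3 := hcop.isUnit_of_dvd' h2 hpw'
        have h4 := Int.isUnit_iff_natAbs_eq.1 h3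
        rw [Int.natAbs_natCast] at h4
        exact hp.one_lt.ne' h4
      · rw [← hE]
        unfold negW negH
        apply filter_congr
        intro p _
        constructor
        · rintro ⟨j, h2, h3, h4⟩
          refine ⟨j, h2, h3, ?_⟩
          rwa [hvl] at h4
        · rintro ⟨j, h2, h3, h4⟩
          refine ⟨j, h2, h3, ?_⟩
          rwa [hvl]
      · have h2 := (Int.modEq_iff_dvd).1 hmr.symm
        have h3 : (q.1 : ℤ) - (r - U0) = U0 + (q.1 : ℤ) - r := by ring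
        rw [h3]
        exact h2
  have hcard : (AA.card : ℝ) ≤ ∑ w ∈ (Icc 1 X).filter (fun w => W0 + w ≡ R [MOD Q]),
      G * (∏ p ∈ (W0 + w).primeFactors.filter (fun p => z < p), (p : ℝ) / ((p : ℝ) - c)) / L := by
    rw [card_eq_sum_card_fiberwise (f := Prod.snd) hmaps, Nat.cast_sum]
    exact sum_le_sum hfib
  refine hcard.trans ?_
  rw [← sum_div, ← mul_sum]
  apply div_le_div_of_nonneg_right _ hL0
  have h5 := hA X Q R W0 hQ1 hRQ hQX hW0
  have hQr : (0 : ℝ) < Q := by exact_mod_cast (by omega : 0 < Q)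
  have h6 : (X : ℝ) / Q ≤ X * ∏ j, ∏ p ∈ (s j).primeFactors, 1 / ((p : ℝ) - 1) := by
    rw [div_eq_mul_inv]
    apply mul_le_mul_of_nonneg_left _ (Nat.cast_nonneg X)
    rw [hQ, Nat.cast_prod, ← prod_inv_distrib]
    apply prod_le_prod
    · intro j _
      positivity
    · intro j _
      have h7 : (s j : ℝ) = ∏ p ∈ (s j).primeFactors, (p : ℝ) := by
        rw [← Nat.cast_prod, Nat.prod_primeFactors_of_squarefree (dv_squarefree (hs' j))]
      conv_lhs => rw [h7]
      rw [← prod_inv_distrib]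
      apply prod_le_prod
      · intro p _
        positivity
      · intro p hp
        have h8 : (2 : ℝ) ≤ p := by exact_mod_cast (Nat.prime_of_mem_primeFactors hp).two_le
        rw [inv_eq_one_div]
        apply one_div_le_one_div_of_le <;> linarith
  calc G * ∑ w ∈ (Icc 1 X).filter (fun w => W0 + w ≡ R [MOD Q]),
        ∏ p ∈ (W0 + w).primeFactors.filter (fun p => z < p), (p : ℝ) / ((p : ℝ) - c)
      ≤ G * (CA * (X / Q)) := mul_le_mul_of_nonneg_left h5 hG0
    _ ≤ G * (CA * (X * ∏ j, ∏ p ∈ (s j).primeFactors, 1 / ((p : ℝ) - 1))) := by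
        apply mul_le_mul_of_nonneg_left _ hG0
        exact mul_le_mul_of_nonneg_left h6 hCA
    _ = C * CA * X ^ 2 * (1 / 2) ^ (P3 T s).card *
        (∏ j, (gw 1 c (s j) * ∏ p ∈ (s j).primeFactors, 1 / ((p : ℝ) - 1))) *
        (∏ j, gr (f j) c (v j) / v j) * (∏ j, ru (f j) (e j)) := by
        rw [hG, prod_mul_distrib]
        ring

end Pool.Agent.L7h80.RP
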